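import Mathlib

/-!
# Critical edges at regular vertices of Schrijver graphs

The colouring of the Schrijver graph `SG(n,k)` minus an edge with a regular end.
-/

set_option autoImplicit false

namespace Pool.Agent.X80.SG

open Finset

variable {n : ℕ}

/-- `S` is independent in the cycle: it has no two cyclically consecutive elements. -/
def Stable (S : Finset (ZMod n)) : Prop := ∀ i ∈ S, i + 1 ∉ S

/-- `S` is regular: it meets every three cyclically consecutive elements. -/
def Regular (S : Finset (ZMod n)) : Prop := ∀ i, i ∈ S ∨ i + 1 ∈ S ∨ i + 2 ∈ S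

/-- the place of `y` if one starts to count right after `z` -/
def ord (z y : ZMod n) : ℕ := (y - z - 1).val

structure Setup (V W : Finset (ZMod n)) (k : ℕ) : Prop where
  hV : Stable V
  hW : Stable W
  hd : Disjoint V W
  cV : V.card = k
  cW : W.card = k
  reg : Regular V

lemma ord_inj [NeZero n] (z : ZMod n) {a b : ZMod n} (h : ord z a = ord z b) : a = b := by
  have h1 := ZMod.val_injective n h
  linear_combination h1

lemma ord_succ (hn : 3 ≤ n) {z y : ZMod n} (h : y ≠ z) : ord z (y + 1) = ord z y + 1 := by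
  haveI : NeZero n := ⟨by omega⟩
  haveI : Fact (1 < n) := ⟨by omega⟩
  unfold ord
  have h1 : (y - z - 1).val ≠ n - 1 := by
    intro h2
    apply h
    have h3 : ((y - z - 1).val : ZMod n) = y - z - 1 := ZMod.natCast_zmod_val _
    rw [h2, Nat.cast_sub (by omega)] at h3
    simp at h3
    linear_combination -h3
  have h2 : (y - z - 1).val < n := ZMod.val_lt _
  have h3 : y + 1 - z - 1 = (y - z - 1) + 1 := by ring
  rw [h3, ZMod.val_add_of_lt, ZMod.val_one]
  rw [ZMod.val_one]
  omega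

lemma ord_pred (hn : 3 ≤ n) {z y : ZMod n} (h : y ≠ z + 1) : ord z y = ord z (y - 1) + 1 := by
  have h1 : y - 1 ≠ z := fun h2 => h (by rw [← h2]; ring)
  have := ord_succ hn h1
  rwa [sub_add_cancel] at this

lemma ord_lt_self (hn : 3 ≤ n) {z y : ZMod n} (h : y ≠ z) : ord z y < ord z z := by
  haveI : NeZero n := ⟨by omega⟩
  have h1 := ord_succ hn h
  have h2 : ord z z = n - 1 := by
    unfold ord
    have h3 : z - z - 1 = ((n - 1 : ℕ) : ZMod n) := by
      rw [Nat.cast_sub (by omega)]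
      simp
    rw [h3, ZMod.val_natCast, Nat.mod_eq_of_lt (by omega)]
  have h3 : ord z (y + 1) < n := ZMod.val_lt _
  omega

variable {V W : Finset (ZMod n)} {k : ℕ}

lemma Stable.pred {S : Finset (ZMod n)} (h : Stable S) {i : ZMod n} (hi : i ∈ S) : i - 1 ∉ S := by
  intro h1
  have := h _ h1
  rw [sub_add_cancel] at this
  exact this hi

/-- every gap of `V` contains an element of `W` -/
lemma Setup.star (h : Setup V W k) {v : ZMod n} (hv : v ∈ V) : v + 1 ∈ W ∨ v + 2 ∈ W := by
  classical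
  set f : ZMod n → ZMod n := fun w => if w - 1 ∈ V then w - 1 else w - 2 with hf
  have hnV : ∀ w ∈ W, w ∉ V := fun w hw hv => (Finset.disjoint_left.1 h.hd) hv hw
  have hfV : ∀ w ∈ W, f w ∈ V := by
    intro w hw
    simp only [hf]
    split_ifs with h1
    · exact h1
    · have h2 := h.reg (w - 2)
      rw [show w - 2 + 1 = w - 1 by ring, show w - 2 + 2 = w by ring] at h2
      rcases h2 with h2 | h2 | h2
      · exact h2
      · exact absurd h2 h1
      · exact absurd h2 (hnV w hw)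
  have hcase : ∀ w, w = f w + 1 ∨ w = f w + 2 := by
    intro w
    simp only [hf]
    split_ifs
    · left; ring
    · right; ring
  have hinj : ∀ a ∈ W, ∀ b ∈ W, f a = f b → a = b := by
    intro a ha b hb hab
    rcases hcase a with h1 | h1 <;> rcases hcase b with h2 | h2
    · rw [h1, h2, hab]
    · exfalso
      have h3 : b = a + 1 := by rw [h1, h2, hab]; ring
      exact h.hW a ha (h3 ▸ hb)
    · exfalso
      have h3 : a = b + 1 := by rw [h1, h2, hab]; ring
      exact h.hW b hb (h3 ▸ ha)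
    · rw [h1, h2, hab]
  have himg : W.image f = V := by
    apply Finset.eq_of_subset_of_card_le
    · intro v hv
      obtain ⟨w, hw, rfl⟩ := Finset.mem_image.1 hv
      exact hfV w hw
    · rw [Finset.card_image_of_injOn (fun a ha b hb hab => hinj a ha b hb hab), h.cV, h.cW]
  rw [← himg] at hv
  obtain ⟨w, hw, rfl⟩ := Finset.mem_image.1 hv
  rcases hcase w with h1 | h1
  · left; rwa [← h1]
  · right; rwa [← h1]

/-- the neighbours of an element outside `V ∪ W` -/
lemma Setup.nb (h : Setup V W k) {x : ZMod n} (hxV : x ∉ V) (hxW : x ∉ W) :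
    (x - 1 ∈ V ∧ x + 1 ∈ W) ∨ (x - 1 ∈ W ∧ x + 1 ∈ V) := by
  by_cases h1 : x - 1 ∈ V
  · left
    refine ⟨h1, ?_⟩
    have h2 := h.star h1
    rw [show x - 1 + 1 = x by ring, show x - 1 + 2 = x + 1 by ring] at h2
    exact h2.resolve_left hxW
  · right
    have h2 := h.reg (x - 1)
    rw [show x - 1 + 1 = x by ring, show x - 1 + 2 = x + 1 by ring] at h2
    have h3 := h.reg (x - 2)
    rw [show x - 2 + 1 = x - 1 by ring, show x - 2 + 2 = x by ring] at h3
    have h4 : x - 2 ∈ V := by tauto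
    have h5 := h.star h4
    rw [show x - 2 + 1 = x - 1 by ring, show x - 2 + 2 = x by ring] at h5
    tauto

/-- `N` is a `k`-set inside `V ∪ W` which is stable together with its complement in `V ∪ W`. -/
def Prob (V W : Finset (ZMod n)) (k : ℕ) (N : Finset (ZMod n)) : Prop :=
  N ⊆ V ∪ W ∧ N.card = k ∧ Stable N ∧ Stable ((V ∪ W) \ N)

/-- `x` is the first place where `N` changes the side, and `N` misses both neighbours of `x`. -/
def R (V W : Finset (ZMod n)) (z : ZMod n) (N : Finset (ZMod n)) (x : ZMod n) : Prop :=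
  x ∉ V ∧ x ∉ W ∧ x - 1 ∉ N ∧ x + 1 ∉ N ∧
    ((∀ y, y ∈ V ∪ W → ord z y < ord z x → (y ∈ N ↔ y ∈ V)) ∨
      (∀ y, y ∈ V ∪ W → ord z y < ord z x → (y ∈ N ↔ y ∈ W)))

lemma firstChange [NeZero n] (hn : 3 ≤ n) {Y A N : Finset (ZMod n)} {z : ZMod n} (hA : A ⊆ Y)
    (hN : N ⊆ Y) (hz : z + 1 ∈ Y) (hX : ∀ x, x ∉ Y → x - 1 ∈ Y)
    (hA1 : ∀ y, y ∈ Y → y + 1 ∈ Y → (y ∈ A ↔ y + 1 ∉ A))
    (hN1 : ∀ y, y ∈ Y → y + 1 ∈ Y → (y ∈ N ↔ y + 1 ∉ N))
    (hA2 : ∀ x, x ∉ Y → (x - 1 ∈ A ↔ x + 1 ∉ A)) (hne : N ≠ A)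
    (h0 : z + 1 ∈ N ↔ z + 1 ∈ A) :
    ∃ x, x ∉ Y ∧ (x - 1 ∈ N ↔ x + 1 ∈ N) ∧
      ∀ y, y ∈ Y → ord z y < ord z x → (y ∈ N ↔ y ∈ A) := by
  classical
  have hex : (Y.filter (fun y => ¬ (y ∈ N ↔ y ∈ A))).Nonempty := by
    by_contra h
    rw [Finset.not_nonempty_iff_eq_empty, Finset.filter_eq_empty_iff] at h
    apply hne
    ext y
    by_cases hy : y ∈ Y
    · have := h hy
      tauto
    · constructor
      · intro h1; exact absurd (hN h1) hy
      · intro h1; exact absurd (hA h1) hy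
  obtain ⟨y, hy, hmin⟩ := Finset.exists_min_image _ (ord z) hex
  rw [Finset.mem_filter] at hy
  obtain ⟨hyY, hyd⟩ := hy
  have hagree : ∀ y', y' ∈ Y → ord z y' < ord z y → (y' ∈ N ↔ y' ∈ A) := by
    intro y' hy' hlt
    by_contra h1
    have := hmin y' (Finset.mem_filter.2 ⟨hy', h1⟩)
    omega
  have hyz : y ≠ z + 1 := by
    rintro rfl
    exact hyd h0
  have ho := ord_pred hn hyz
  have hxY : y - 1 ∉ Y := by
    intro hx
    have h1 := hagree (y - 1) hx (by omega)
    have h2 := hA1 (y - 1) hx (by rwa [sub_add_cancel])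
    have h3 := hN1 (y - 1) hx (by rwa [sub_add_cancel])
    rw [sub_add_cancel] at h2 h3
    tauto
  refine ⟨y - 1, hxY, ?_, fun y' hy' hlt => hagree y' hy' (by omega)⟩
  have hx1 := hX _ hxY
  have hxz : y - 1 ≠ z + 1 := by
    intro h1
    rw [h1] at hxY
    exact hxY hz
  have ho2 := ord_pred hn hxz
  have h1 := hagree _ hx1 (by omega)
  have h2 := hA2 _ hxY
  rw [sub_add_cancel] at h2 ⊢
  tauto

lemma lemA [NeZero n] (hn : 3 ≤ n) (h : Setup V W k) {z : ZMod n} (hz : z + 1 ∈ V ∪ W)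
    {N : Finset (ZMod n)} (hN : Prob V W k N) (hNV : N ≠ V) (hNW : N ≠ W) :
    ∃ x, R V W z N x ∨ R V W z ((V ∪ W) \ N) x := by
  obtain ⟨hNY, -, hS1, hS2⟩ := hN
  have hdis : ∀ y, y ∈ V → y ∉ W := fun y hy hy' => Finset.disjoint_left.1 h.hd hy hy'
  have hX : ∀ x, x ∉ V ∪ W → x - 1 ∈ V ∪ W := by
    intro x hx
    rw [Finset.mem_union, not_or] at hx
    rcases h.nb hx.1 hx.2 with h1 | h1
    · exact Finset.mem_union_left _ h1.1
    · exact Finset.mem_union_right _ h1.1
  have hN1 : ∀ y, y ∈ V ∪ W → y + 1 ∈ V ∪ W → (y ∈ N ↔ y + 1 ∉ N) := by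
    intro y hy hy1
    constructor
    · intro h1; exact hS1 y h1
    · intro h1
      by_contra h2
      exact hS2 y (Finset.mem_sdiff.2 ⟨hy, h2⟩) (Finset.mem_sdiff.2 ⟨hy1, h1⟩)
  have hV1 : ∀ y, y ∈ V ∪ W → y + 1 ∈ V ∪ W → (y ∈ V ↔ y + 1 ∉ V) := by
    intro y hy hy1
    rw [Finset.mem_union] at hy hy1
    have h1 := h.hV y
    have h2 := h.hW y
    have h3 := hdis y
    tauto
  have hW1 : ∀ y, y ∈ V ∪ W → y + 1 ∈ V ∪ W → (y ∈ W ↔ y + 1 ∉ W) := by
    intro y hy hy1
    rw [Finset.mem_union] at hy hy1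
    have h1 := h.hV y
    have h2 := h.hW y
    have h3 := hdis y
    tauto
  have hV2 : ∀ x, x ∉ V ∪ W → (x - 1 ∈ V ↔ x + 1 ∉ V) := by
    intro x hx
    rw [Finset.mem_union, not_or] at hx
    have h1 := h.nb hx.1 hx.2
    have h2 := hdis (x - 1)
    have h3 := hdis (x + 1)
    tauto
  have hW2 : ∀ x, x ∉ V ∪ W → (x - 1 ∈ W ↔ x + 1 ∉ W) := by
    intro x hx
    rw [Finset.mem_union, not_or] at hx
    have h1 := h.nb hx.1 hx.2
    have h2 := hdis (x - 1)
    have h3 := hdis (x + 1)
    tauto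
  have hYdis : ∀ y, y ∈ V ∪ W → (y ∈ V ↔ y ∉ W) := by
    intro y hy
    rw [Finset.mem_union] at hy
    have h3 := hdis y
    tauto
  have key : (z + 1 ∈ N ↔ z + 1 ∈ V) ∨ (z + 1 ∈ N ↔ z + 1 ∈ W) := by
    have := hYdis _ hz
    tauto
  have hX1 : ∀ x, x ∉ V ∪ W → x + 1 ∈ V ∪ W := by
    intro x hx
    rw [Finset.mem_union, not_or] at hx
    rcases h.nb hx.1 hx.2 with h1 | h1
    · exact Finset.mem_union_right _ h1.2
    · exact Finset.mem_union_left _ h1.2
  rcases key with key | key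
  · obtain ⟨x, hx, h1, h2⟩ := firstChange hn Finset.subset_union_left hNY hz hX hV1 hN1 hV2 hNV key
    have hx' := hx
    rw [Finset.mem_union, not_or] at hx'
    refine ⟨x, ?_⟩
    by_cases h3 : x - 1 ∈ N
    · right
      refine ⟨hx'.1, hx'.2, ?_, ?_, Or.inr ?_⟩
      · rw [Finset.mem_sdiff]; tauto
      · rw [Finset.mem_sdiff]; tauto
      · intro y hy hlt
        have h4 := h2 y hy hlt
        have h5 := hYdis y hy
        rw [Finset.mem_sdiff]
        tauto
    · left
      exact ⟨hx'.1, hx'.2, h3, fun h4 => h3 (h1.2 h4), Or.inl h2⟩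
  · obtain ⟨x, hx, h1, h2⟩ := firstChange hn Finset.subset_union_right hNY hz hX hW1 hN1 hW2 hNW key
    have hx' := hx
    rw [Finset.mem_union, not_or] at hx'
    refine ⟨x, ?_⟩
    by_cases h3 : x - 1 ∈ N
    · right
      refine ⟨hx'.1, hx'.2, ?_, ?_, Or.inl ?_⟩
      · rw [Finset.mem_sdiff]; tauto
      · rw [Finset.mem_sdiff]; tauto
      · intro y hy hlt
        have h4 := h2 y hy hlt
        have h5 := hYdis y hy
        rw [Finset.mem_sdiff]
        tauto
    · left
      exact ⟨hx'.1, hx'.2, h3, fun h4 => h3 (h1.2 h4), Or.inr h2⟩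

lemma count {I O : Finset (ZMod n)} (hcard : I.card = O.card) (o : ZMod n → ZMod n) {q : ZMod n}
    (hq : q ∈ O) (hmap : ∀ m ∈ I, o m ∈ O) (hne : ∀ m ∈ I, o m ≠ q)
    (hinj : ∀ m ∈ I, ∀ m' ∈ I, o m = o m' → m = m') : False := by
  classical
  have h1 : I.card ≤ (O.erase q).card :=
    Finset.card_le_card_of_injOn o (fun m hm => Finset.mem_coe.2 (Finset.mem_erase.2 ⟨hne m hm, hmap m hm⟩))
      (fun a ha b hb hab => hinj a ha b hb hab)
  rw [Finset.card_erase_of_mem hq] at h1
  have h2 := Finset.card_pos.2 ⟨q, hq⟩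
  omega

lemma lemB (hn : 3 ≤ n) (h : Setup V W k) {z : ZMod n} (hzV : z ∉ V) (hzW : z ∉ W)
    {S : Finset (ZMod n)} (hS : Stable S) (hSk : S.card = k) (hSX : ∃ x ∈ S, x ∉ V ∧ x ∉ W) :
    ∃ x ∈ S, x ∉ V ∧ x ∉ W ∧ ∀ N, Prob V W k N → R V W z N x → ¬ Disjoint S N := by
  classical
  have : NeZero n := ⟨by omega⟩
  set I := S.filter (fun x => x ∉ V ∧ x ∉ W) with hI
  have hmemI : ∀ x, x ∈ I ↔ x ∈ S ∧ x ∉ V ∧ x ∉ W := fun x => Finset.mem_filter
  obtain ⟨i, hi, himax⟩ := Finset.exists_max_image I (ord z) (by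
    obtain ⟨x, hx, hx'⟩ := hSX
    exact ⟨x, (hmemI x).2 ⟨hx, hx'⟩⟩)
  by_contra hcon
  push Not at hcon
  obtain ⟨hiS, hiV, hiW⟩ := (hmemI i).1 hi
  obtain ⟨N, hNP, hNR, hdis⟩ := hcon i hiS hiV hiW
  obtain ⟨hNY, hNk, hNS, hNS'⟩ := hNP
  obtain ⟨-, -, hi1, hi2, hag⟩ := hNR
  have hVW : ∀ y, y ∈ V → y ∉ W := fun y hy hy' => Finset.disjoint_left.1 h.hd hy hy'
  have hSN : ∀ y, y ∈ S → y ∉ N := fun y hy hy' => Finset.disjoint_left.1 hdis hy hy'
  have hX1 : ∀ x, x ∉ V → x ∉ W → x - 1 ∈ V ∪ W ∧ x + 1 ∈ V ∪ W := by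
    intro x hx hx'
    rcases h.nb hx hx' with h1 | h1
    · exact ⟨Finset.mem_union_left _ h1.1, Finset.mem_union_right _ h1.2⟩
    · exact ⟨Finset.mem_union_right _ h1.1, Finset.mem_union_left _ h1.2⟩
  have hzY : ∀ y, y ∈ V ∪ W → y ≠ z := by
    rintro y hy rfl
    rcases Finset.mem_union.1 hy with h1 | h1
    · exact hzV h1
    · exact hzW h1
  set B := (V ∪ W) \ N with hB
  have hmemB : ∀ y, y ∈ B ↔ y ∈ V ∪ W ∧ y ∉ N := fun y => Finset.mem_sdiff
  have hYk : (V ∪ W).card = 2 * k := by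
    rw [Finset.card_union_of_disjoint h.hd, h.cV, h.cW]
    ring
  have hBk : B.card = k := by
    rw [hB, Finset.card_sdiff_of_subset hNY, hYk, hNk]
    omega
  have hcard : I.card = (B \ S).card := by
    have h1 : B ∩ S = S \ I := by
      ext x
      rw [Finset.mem_inter, hmemB, Finset.mem_sdiff, hmemI, Finset.mem_union]
      have := hSN x
      tauto
    have h2 : (B \ S).card + (B ∩ S).card = B.card := Finset.card_sdiff_add_card_inter B S
    have h3 : (S \ I).card = S.card - I.card :=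
      Finset.card_sdiff_of_subset (Finset.filter_subset _ _)
    have h4 : I.card ≤ S.card := Finset.card_le_card (Finset.filter_subset _ _)
    rw [h1, h3] at h2
    omega
  have hiz : i ≠ z := by
    intro hiz
    have h1 := hX1 i hiV hiW
    have h2 : ord z (i - 1) < ord z i := by
      have := ord_lt_self hn (hzY _ h1.1)
      rwa [hiz] at this ⊢
    have h3 : ord z (i + 1) < ord z i := by
      have := ord_lt_self hn (hzY _ h1.2)
      rwa [hiz] at this ⊢
    rcases hag with hag | hag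
    · have h4 := hag _ h1.1 h2
      have h5 := hag _ h1.2 h3
      have h6 := h.nb hiV hiW
      tauto
    · have h4 := hag _ h1.1 h2
      have h5 := hag _ h1.2 h3
      have h6 := h.nb hiV hiW
      tauto
  have hilt := ord_lt_self hn hiz
  have hord1 : ∀ m, m ∈ I → ord z (m + 1) = ord z m + 1 := by
    intro m hm
    apply ord_succ hn
    rintro rfl
    have := himax _ hm
    omega
  have hord2 : ∀ m, m ∈ I → ord z m = ord z (m - 1) + 1 := by
    intro m hm
    apply ord_pred hn
    rintro rfl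
    have h1 := (hX1 z hzV hzW).2
    have h2 := (hmemI _).1 hm
    rw [Finset.mem_union] at h1
    tauto
  have hlt : ∀ m, m ∈ I → m ≠ i → ord z (m + 1) < ord z i := by
    intro m hm hmi
    have h1 := himax m hm
    have h2 : ord z m ≠ ord z i := fun h2 => hmi (ord_inj z h2)
    have h3 := hord1 m hm
    have h4 : ord z (m + 1) ≠ ord z i := by
      intro h4
      have h5 := ord_inj z h4
      have h6 := (hX1 m ((hmemI m).1 hm).2.1 ((hmemI m).1 hm).2.2).2
      rw [h5, Finset.mem_union] at h6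
      tauto
    omega
  have hq : i + 1 ∈ B \ S := by
    rw [Finset.mem_sdiff, hmemB]
    exact ⟨⟨(hX1 i hiV hiW).2, hi2⟩, hS i hiS⟩
  have hoi := hord1 i hi
  have hoi2 := hord2 i hi
  have hiB : i - 1 ∈ B := (hmemB _).2 ⟨(hX1 i hiV hiW).1, hi1⟩
  rcases hag with hag | hag
  · -- `B` agrees with `W` before `i`
    have hagB : ∀ y, y ∈ V ∪ W → ord z y < ord z i → (y ∈ B ↔ y ∈ W) := by
      intro y hy hlt'
      have h1 := hag y hy hlt'
      rw [hmemB]
      have h2 := Finset.mem_union.1 hy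
      have h3 := hVW y
      tauto
    have hiW' : i - 1 ∈ W := (hagB _ (hX1 i hiV hiW).1 (by omega)).1 hiB
    set o : ZMod n → ZMod n := fun m => if m - 1 ∈ W then m - 1 else m + 1 with ho
    have hprop : ∀ m, m ∈ I → o m ∈ W ∧ ord z (o m) < ord z i ∧ o m ∉ S := by
      intro m hm
      obtain ⟨hmS, hmV, hmW⟩ := (hmemI m).1 hm
      simp only [ho]
      split_ifs with h1
      · have h2 := hord2 m hm
        have h3 := himax m hm
        exact ⟨h1, by omega, hS.pred hmS⟩
      · have h2 := h.nb hmV hmW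
        have h3 : m ≠ i := by
          rintro rfl
          exact h1 hiW'
        exact ⟨by tauto, hlt m hm h3, hS m hmS⟩
    have hcase : ∀ m, m = o m + 1 ∨ m = o m - 1 := by
      intro m
      simp only [ho]
      split_ifs
      · left; ring
      · right; ring
    refine count hcard o hq ?_ ?_ ?_
    · intro m hm
      obtain ⟨h1, h2, h3⟩ := hprop m hm
      have h4 : o m ∈ V ∪ W := Finset.mem_union_right _ h1
      exact Finset.mem_sdiff.2 ⟨(hagB _ h4 h2).2 h1, h3⟩
    · intro m hm hmq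
      have h1 := (hprop m hm).2.1
      rw [hmq] at h1
      omega
    · have main : ∀ p, p ∈ W → p - 1 ∈ I → p + 1 ∈ I → False := by
        intro p hp h1 h2
        have h3 := h.reg (p - 1)
        rw [show p - 1 + 1 = p by ring, show p - 1 + 2 = p + 1 by ring] at h3
        have h4 := (hmemI _).1 h1
        have h5 := (hmemI _).1 h2
        have h6 := hVW p
        tauto
      intro m hm m' hm' heq
      have hpW := (hprop m hm).1
      rcases hcase m with h1 | h1 <;> rcases hcase m' with h2 | h2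
      · rw [h1, h2, heq]
      · exfalso
        refine main _ hpW ?_ ?_
        · rw [heq, ← h2]; exact hm'
        · rw [← h1]; exact hm
      · exfalso
        refine main _ hpW ?_ ?_
        · rw [← h1]; exact hm
        · rw [heq, ← h2]; exact hm'
      · rw [h1, h2, heq]
  · -- `B` agrees with `V` before `i`
    have hagB : ∀ y, y ∈ V ∪ W → ord z y < ord z i → (y ∈ B ↔ y ∈ V) := by
      intro y hy hlt'
      have h1 := hag y hy hlt'
      rw [hmemB]
      have h2 := Finset.mem_union.1 hy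
      have h3 := hVW y
      tauto
    have hiV' : i - 1 ∈ V := (hagB _ (hX1 i hiV hiW).1 (by omega)).1 hiB
    have countV : ∀ t : ℕ, (∀ m, m ∈ I → t ≤ ord z m → m + 2 ∉ I) →
        (∀ m, m ∈ I → ord z m < t → ∀ v, v ∈ V → ord z v < ord z m → v ∉ S) → False := by
      intro t ha hb
      set o : ZMod n → ZMod n := fun m => if m - 1 ∈ V then m - 1 else
        if ord z m < t then m - 2 else m + 1 with ho
      have hcase : ∀ m, m ∈ I → (o m = m - 1 ∧ m - 1 ∈ V) ∨
          (o m = m - 2 ∧ m - 2 ∈ V ∧ ord z m < t ∧ ord z (m - 2) < ord z m) ∨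
          (o m = m + 1 ∧ m + 1 ∈ V ∧ t ≤ ord z m ∧ m ≠ i) := by
        intro m hm
        obtain ⟨hmS, hmV, hmW⟩ := (hmemI m).1 hm
        simp only [ho]
        split_ifs with h1 h2
        · left; exact ⟨rfl, h1⟩
        · right; left
          have h3 := h.reg (m - 2)
          rw [show m - 2 + 1 = m - 1 by ring, show m - 2 + 2 = m by ring] at h3
          have h4 : m - 2 ∈ V := by tauto
          refine ⟨rfl, h4, h2, ?_⟩
          have h5 : m - 1 ≠ z + 1 := by
            intro h5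
            apply hzV
            have h6 : z = m - 2 := by linear_combination -h5
            rw [h6]
            exact h4
          have h6 := ord_pred hn h5
          rw [show m - 1 - 1 = m - 2 by ring] at h6
          have h7 := hord2 m hm
          omega
        · right; right
          have h3 := h.nb hmV hmW
          refine ⟨rfl, by tauto, by omega, ?_⟩
          rintro rfl
          exact h1 hiV'
      have hprop : ∀ m, m ∈ I → o m ∈ V ∧ ord z (o m) < ord z i ∧ o m ∉ S := by
        intro m hm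
        obtain ⟨hmS, hmV, hmW⟩ := (hmemI m).1 hm
        have hmi := himax m hm
        rcases hcase m hm with ⟨h1, h2⟩ | ⟨h1, h2, h3, h4⟩ | ⟨h1, h2, h3, h4⟩
        · rw [h1]
          have := hord2 m hm
          exact ⟨h2, by omega, hS.pred hmS⟩
        · rw [h1]
          exact ⟨h2, by omega, hb m hm h3 _ h2 h4⟩
        · rw [h1]
          exact ⟨h2, hlt m hm h4, hS m hmS⟩
      refine count hcard o hq ?_ ?_ ?_
      · intro m hm
        obtain ⟨h1, h2, h3⟩ := hprop m hm
        have h4 : o m ∈ V ∪ W := Finset.mem_union_left _ h1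
        exact Finset.mem_sdiff.2 ⟨(hagB _ h4 h2).2 h1, h3⟩
      · intro m hm hmq
        have h1 := (hprop m hm).2.1
        rw [hmq] at h1
        omega
      · have m12 : ∀ m, m ∈ I → ∀ m', m' ∈ I → m - 1 ∈ V → m - 1 = m' - 2 → False := by
          intro m hm m' hm' h1 h2
          have h3 := h.star h1
          rw [show m - 1 + 1 = m by ring, show m - 1 + 2 = m' by rw [h2]; ring] at h3
          have h4 := (hmemI _).1 hm
          have h5 := (hmemI _).1 hm'
          tauto
        have m13 : ∀ m, m ∈ I → ∀ m', m' ∈ I → t ≤ ord z m' → m - 1 = m' + 1 → False := by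
          intro m hm m' hm' h1 h2
          apply ha m' hm' h1
          rw [show m' + 2 = m by linear_combination -h2]
          exact hm
        have m23 : ∀ m, m ∈ I → ∀ m', m' ∈ I → ord z m < t → ord z (m - 2) < ord z m →
            t ≤ ord z m' → m - 2 = m' + 1 → False := by
          intro m hm m' hm' h1 h2 h3 h4
          have h5 := hord1 m' hm'
          rw [← h4] at h5
          omega
        intro m hm m' hm' heq
        rcases hcase m hm with ⟨h1, h2⟩ | ⟨h1, h2, h3, h4⟩ | ⟨h1, h2, h3, h4⟩ <;>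
          rcases hcase m' hm' with ⟨k1, k2⟩ | ⟨k1, k2, k3, k4⟩ | ⟨k1, k2, k3, k4⟩ <;>
          rw [h1, k1] at heq
        · linear_combination heq
        · exact (m12 m hm m' hm' h2 heq).elim
        · exact (m13 m hm m' hm' k3 heq).elim
        · exact (m12 m' hm' m hm k2 heq.symm).elim
        · linear_combination heq
        · exact (m23 m hm m' hm' h3 h4 k3 heq).elim
        · exact (m13 m' hm' m hm h3 heq.symm).elim
        · exact (m23 m' hm' m hm k3 k4 h3 heq.symm).elim
        · linear_combination heq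
    by_cases hT : (I.filter (fun j => j + 2 ∈ I)).Nonempty
    · obtain ⟨j, hj, hjmax⟩ := Finset.exists_max_image _ (ord z) hT
      obtain ⟨hjI, hj2⟩ := Finset.mem_filter.1 hj
      obtain ⟨hjS, hjV, hjW⟩ := (hmemI j).1 hjI
      obtain ⟨N', -, hNR', hdis'⟩ := hcon j hjS hjV hjW
      obtain ⟨-, -, hj1, hj3, hag'⟩ := hNR'
      have hregj := h.reg j
      have hnbj := h.nb hjV hjW
      have hj2' := (hmemI _).1 hj2
      have hjVW := hVW (j + 1)
      have hj1V : j + 1 ∈ V := by
        rcases hregj with h1 | h1 | h1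
        · exact absurd h1 hjV
        · exact h1
        · exact absurd h1 hj2'.2.1
      have hjW1 : j - 1 ∈ W := by
        rcases hnbj with h1 | h1
        · exact absurd h1.2 (hjVW hj1V)
        · exact h1.1
      have hoj := hord2 j hjI
      have hagV : ∀ y, y ∈ V ∪ W → ord z y < ord z j → (y ∈ N' ↔ y ∈ V) := by
        rcases hag' with h1 | h1
        · exact h1
        · exfalso
          exact hj1 ((h1 (j - 1) (Finset.mem_union_right _ hjW1) (by omega)).2 hjW1)
      apply countV (ord z j + 1)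
      · intro m hm htm hm2
        have := hjmax m (Finset.mem_filter.2 ⟨hm, hm2⟩)
        omega
      · intro m hm hmt v hv hvm hvS
        have h1 := (hagV v (Finset.mem_union_left _ hv) (by omega)).2 hv
        exact Finset.disjoint_left.1 hdis' hvS h1
    · apply countV 0
      · intro m hm _ hm2
        exact hT ⟨m, Finset.mem_filter.2 ⟨hm, hm2⟩⟩
      · intro m hm h0
        omega

/-- The vertices of the Schrijver graph `SG(n,k)`: the `k`-subsets of the cycle `ZMod n` without
two cyclically consecutive elements. -/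
def Vert (n k : ℕ) : Type := {S : Finset (ZMod n) // S.card = k ∧ Stable S}

/-- The Schrijver graph `SG(n,k)`: two vertices are adjacent when they are disjoint (and
different, which matters only for `k = 0`). -/
def SG (n k : ℕ) : SimpleGraph (Vert n k) where
  Adj A B := A ≠ B ∧ Disjoint A.1 B.1
  symm := ⟨fun _ _ h => ⟨h.1.symm, h.2.symm⟩⟩
  loopless := ⟨fun _ h => h.1 rfl⟩

theorem colorable_deleteEdge (hn : 3 ≤ n) (hnk : 2 * k ≤ n) (V W : Vert n k)
    (hadj : (SG n k).Adj V W) (hreg : Regular V.1) :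
    ((SG n k).deleteEdges {s(V, W)}).Colorable (n - 2 * k + 1) := by
  classical
  have : NeZero n := ⟨by omega⟩
  have h : Setup V.1 W.1 k := ⟨V.2.2, W.2.2, hadj.2, V.2.1, W.2.1, hreg⟩
  have hVW : ∀ y, y ∈ V.1 → y ∉ W.1 := fun y hy hy' => Finset.disjoint_left.1 h.hd hy hy'
  have hz : ∃ z, z + 1 ∈ V.1 ∪ W.1 ∧ ((∃ x, x ∉ V.1 ∧ x ∉ W.1) → (z ∉ V.1 ∧ z ∉ W.1)) := by
    by_cases hX : ∃ x, x ∉ V.1 ∧ x ∉ W.1
    · obtain ⟨z, hz1, hz2⟩ := hX
      refine ⟨z, ?_, fun _ => ⟨hz1, hz2⟩⟩
      rcases h.nb hz1 hz2 with h1 | h1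
      · exact Finset.mem_union_right _ h1.2
      · exact Finset.mem_union_left _ h1.2
    · refine ⟨0, ?_, fun h1 => absurd h1 hX⟩
      rw [Finset.mem_union]
      by_contra h1
      rw [not_or] at h1
      exact hX ⟨_, h1⟩
  obtain ⟨z, hzY, hzX⟩ := hz
  let C := {x : ZMod n // x ∉ V.1 ∧ x ∉ W.1}
  have hYk : (V.1 ∪ W.1).card = 2 * k := by
    rw [Finset.card_union_of_disjoint h.hd, h.cV, h.cW]
    ring
  have hcardC : Fintype.card (Option C) = n - 2 * k + 1 := by
    rw [Fintype.card_option]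
    congr 1
    have h1 : Fintype.card C = (Finset.univ \ (V.1 ∪ W.1)).card := by
      rw [Fintype.card_subtype]
      congr 1
      ext x
      simp only [Finset.mem_filter, Finset.mem_univ, true_and, Finset.mem_sdiff, Finset.mem_union,
        not_or]
    rw [h1, Finset.card_sdiff_of_subset (Finset.subset_univ _), hYk, Finset.card_univ, ZMod.card]
  let G : Vert n k → C → Prop := fun S x => x.1 ∈ S.1 ∧
    ∀ N, Prob V.1 W.1 k N → R V.1 W.1 z N x.1 → ¬ Disjoint S.1 N
  let H : Vert n k → C → Prop := fun S x => Prob V.1 W.1 k S.1 ∧ R V.1 W.1 z S.1 x.1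
  let col : Vert n k → Option C := fun S =>
    if h1 : ∃ x, G S x then some h1.choose else
      if h2 : ∃ x, H S x then some h2.choose else none
  have colG : ∀ S, (∃ x, G S x) → ∃ x, col S = some x ∧ G S x := by
    intro S h1
    refine ⟨h1.choose, ?_, h1.choose_spec⟩
    simp only [col, dif_pos h1]
  have colH : ∀ S, (¬ ∃ x, G S x) → (∃ x, H S x) → ∃ x, col S = some x ∧ H S x := by
    intro S h1 h2
    refine ⟨h2.choose, ?_, h2.choose_spec⟩
    simp only [col, dif_neg h1, dif_pos h2]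
  have colN : ∀ S, (¬ ∃ x, G S x) → (¬ ∃ x, H S x) → col S = none := by
    intro S h1 h2
    simp only [col, dif_neg h1, dif_neg h2]
  have col1 : ∀ S x, col S = some x → G S x ∨ H S x := by
    intro S x hx
    by_cases h1 : ∃ x, G S x
    · obtain ⟨y, hy, hy'⟩ := colG S h1
      rw [hx, Option.some.injEq] at hy
      rw [hy]; exact Or.inl hy'
    · by_cases h2 : ∃ x, H S x
      · obtain ⟨y, hy, hy'⟩ := colH S h1 h2
        rw [hx, Option.some.injEq] at hy
        rw [hy]; exact Or.inr hy'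
      · rw [colN S h1 h2] at hx
        exact absurd hx (by simp)
  have key : ∀ S T : Vert n k, Disjoint S.1 T.1 → col S = col T →
      (∃ x ∈ S.1, x ∉ V.1 ∧ x ∉ W.1) → False := by
    intro S T hd hc hx
    have hz' := hzX (by obtain ⟨x, _, hx'⟩ := hx; exact ⟨x, hx'⟩)
    obtain ⟨x, hxS, hxV, hxW, hxG⟩ := lemB hn h hz'.1 hz'.2 S.2.2 S.2.1 hx
    obtain ⟨y, hy, hyG⟩ := colG S ⟨⟨x, hxV, hxW⟩, hxS, hxG⟩
    rw [hy] at hc
    rcases col1 T y hc.symm with h1 | h1
    · exact Finset.disjoint_left.1 hd hyG.1 h1.1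
    · exact hyG.2 _ h1.1 h1.2 hd
  have hvalid : ∀ {S T : Vert n k}, ((SG n k).deleteEdges {s(V, W)}).Adj S T → col S ≠ col T := by
    intro S T hST hc
    rw [SimpleGraph.deleteEdges_adj] at hST
    obtain ⟨⟨hne, hd⟩, hnot⟩ := hST
    by_cases hS : ∃ x ∈ S.1, x ∉ V.1 ∧ x ∉ W.1
    · exact key S T hd hc hS
    by_cases hT : ∃ x ∈ T.1, x ∉ V.1 ∧ x ∉ W.1
    · exact key T S hd.symm hc.symm hT
    have hSY : S.1 ⊆ V.1 ∪ W.1 := by
      intro x hx
      rw [Finset.mem_union]
      by_contra h1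
      rw [not_or] at h1
      exact hS ⟨x, hx, h1⟩
    have hTY : T.1 ⊆ V.1 ∪ W.1 := by
      intro x hx
      rw [Finset.mem_union]
      by_contra h1
      rw [not_or] at h1
      exact hT ⟨x, hx, h1⟩
    have hTS : T.1 = (V.1 ∪ W.1) \ S.1 := by
      apply Finset.eq_of_subset_of_card_le
      · intro x hx
        exact Finset.mem_sdiff.2 ⟨hTY hx, fun h1 => Finset.disjoint_left.1 hd h1 hx⟩
      · rw [Finset.card_sdiff_of_subset hSY, hYk, S.2.1, T.2.1]
        omega
    have hSne : S.1 ≠ V.1 := by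
      intro h1
      apply hnot
      have h2 : T.1 = W.1 := by
        rw [hTS, h1]
        ext y
        rw [Finset.mem_sdiff, Finset.mem_union]
        have := hVW y
        tauto
      rw [Set.mem_singleton_iff, show S = V from Subtype.ext h1, show T = W from Subtype.ext h2]
    have hSne' : S.1 ≠ W.1 := by
      intro h1
      apply hnot
      have h2 : T.1 = V.1 := by
        rw [hTS, h1]
        ext y
        rw [Finset.mem_sdiff, Finset.mem_union]
        have := hVW y
        tauto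
      rw [Set.mem_singleton_iff, show S = W from Subtype.ext h1, show T = V from Subtype.ext h2]
      exact Sym2.eq_swap
    have hPS : Prob V.1 W.1 k S.1 := ⟨hSY, S.2.1, S.2.2, by rw [← hTS]; exact T.2.2⟩
    have hPT : Prob V.1 W.1 k T.1 := by
      refine ⟨hTY, T.2.1, T.2.2, ?_⟩
      rw [hTS, Finset.sdiff_sdiff_eq_self hSY]
      exact S.2.2
    have hnG : ∀ U : Vert n k, (¬ ∃ x ∈ U.1, x ∉ V.1 ∧ x ∉ W.1) → ¬ ∃ x, G U x := by
      rintro U hU ⟨x, hx, _⟩
      exact hU ⟨x.1, hx, x.2⟩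
    have hsome : ∃ y, col S = some y := by
      obtain ⟨x, hx⟩ := lemA hn h hzY hPS hSne hSne'
      rcases hx with hx | hx
      · obtain ⟨y, hy, -⟩ := colH S (hnG S hS) ⟨⟨x, hx.1, hx.2.1⟩, hPS, hx⟩
        exact ⟨y, hy⟩
      · rw [← hTS] at hx
        obtain ⟨y, hy, -⟩ := colH T (hnG T hT) ⟨⟨x, hx.1, hx.2.1⟩, hPT, hx⟩
        exact ⟨y, by rw [hc, hy]⟩
    obtain ⟨y, hy⟩ := hsome
    have hyS := (col1 S y hy).resolve_left (fun h1 => hnG S hS ⟨y, h1⟩)
    have hyT := (col1 T y (by rw [← hc, hy])).resolve_left (fun h1 => hnG T hT ⟨y, h1⟩)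
    have hmem : y.1 - 1 ∈ V.1 ∪ W.1 := by
      rcases h.nb y.2.1 y.2.2 with h1 | h1
      · exact Finset.mem_union_left _ h1.1
      · exact Finset.mem_union_right _ h1.1
    apply hyT.2.2.2.1
    rw [hTS, Finset.mem_sdiff]
    exact ⟨hmem, hyS.2.2.2.1⟩
  have hcol : ((SG n k).deleteEdges {s(V, W)}).Colorable (Fintype.card (Option C)) :=
    (SimpleGraph.Coloring.mk col hvalid).colorable
  rwa [hcardC] at hcol

end Pool.Agent.X80.SG
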