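import Mathlib
import Pool.Agent.X80.Schrijver

/-!
# Critical interlacing edges of Schrijver graphs
-/

set_option autoImplicit false

namespace Pool.Agent.X80.SG

open Finset

variable {n : ℕ} {V W : Finset (ZMod n)} {k : ℕ}

structure Setup2 (V W : Finset (ZMod n)) (k : ℕ) : Prop where
  hV : Stable V
  hW : Stable W
  hd : Disjoint V W
  cV : V.card = k
  cW : W.card = k
  nb : ∀ x, x ∉ V → x ∉ W → (x - 1 ∈ V ∧ x + 1 ∈ W) ∨ (x - 1 ∈ W ∧ x + 1 ∈ V)

lemma Setup2.swap (h : Setup2 V W k) : Setup2 W V k :=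
  ⟨h.hW, h.hV, h.hd.symm, h.cW, h.cV, fun x h1 h2 => (h.nb x h2 h1).symm⟩

lemma Prob.swap {N : Finset (ZMod n)} (h : Prob V W k N) : Prob W V k N := by
  unfold Prob at h ⊢
  rwa [Finset.union_comm]

lemma R.swap {z x : ZMod n} {N : Finset (ZMod n)} (h : R V W z N x) : R W V z N x := by
  obtain ⟨h1, h2, h3, h4, h5⟩ := h
  rw [Finset.union_comm] at h5
  exact ⟨h2, h1, h3, h4, h5.symm⟩

lemma lemA2 [NeZero n] (hn : 3 ≤ n) (h : Setup2 V W k) {z : ZMod n} (hz : z + 1 ∈ V ∪ W)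
    {N : Finset (ZMod n)} (hN : Prob V W k N) (hNV : N ≠ V) (hNW : N ≠ W) :
    ∃ x, R V W z N x ∨ R V W z ((V ∪ W) \ N) x := by
  obtain ⟨hNY, -, hS1, hS2⟩ := hN
  have hdis : ∀ y, y ∈ V → y ∉ W := fun y hy hy' => Finset.disjoint_left.1 h.hd hy hy'
  have hX : ∀ x, x ∉ V ∪ W → x - 1 ∈ V ∪ W := by
    intro x hx
    rw [Finset.mem_union, not_or] at hx
    rcases h.nb x hx.1 hx.2 with h1 | h1
    · exact Finset.mem_union_left _ h1.1
    · exact Finset.mem_union_right _ h1.1
  have hN1 : ∀ y, y ∈ V ∪ W → y + 1 ∈ V ∪ W → (y ∈ N ↔ y + 1 ∉ N) := by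
    intro y hy hy1
    constructor
    · intro h1; exact hS1 y h1
    · intro h1
      by_contra h2
      exact hS2 y (Finset.mem_sdiff.2 ⟨hy, h2⟩) (Finset.mem_sdiff.2 ⟨hy1, h1⟩)
  have hV1 : ∀ y, y ∈ V ∪ W → y + 1 ∈ V ∪ W → (y ∈ V ↔ y + 1 ∉ V) := by
    intro y hy hy1
    rw [Finset.mem_union] at hy hy1
    have h1 := h.hV y
    have h2 := h.hW y
    have h3 := hdis y
    tauto
  have hW1 : ∀ y, y ∈ V ∪ W → y + 1 ∈ V ∪ W → (y ∈ W ↔ y + 1 ∉ W) := by
    intro y hy hy1
    rw [Finset.mem_union] at hy hy1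
    have h1 := h.hV y
    have h2 := h.hW y
    have h3 := hdis y
    tauto
  have hV2 : ∀ x, x ∉ V ∪ W → (x - 1 ∈ V ↔ x + 1 ∉ V) := by
    intro x hx
    rw [Finset.mem_union, not_or] at hx
    have h1 := h.nb x hx.1 hx.2
    have h2 := hdis (x - 1)
    have h3 := hdis (x + 1)
    tauto
  have hW2 : ∀ x, x ∉ V ∪ W → (x - 1 ∈ W ↔ x + 1 ∉ W) := by
    intro x hx
    rw [Finset.mem_union, not_or] at hx
    have h1 := h.nb x hx.1 hx.2
    have h2 := hdis (x - 1)
    have h3 := hdis (x + 1)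
    tauto
  have hYdis : ∀ y, y ∈ V ∪ W → (y ∈ V ↔ y ∉ W) := by
    intro y hy
    rw [Finset.mem_union] at hy
    have h3 := hdis y
    tauto
  have key : (z + 1 ∈ N ↔ z + 1 ∈ V) ∨ (z + 1 ∈ N ↔ z + 1 ∈ W) := by
    have := hYdis _ hz
    tauto
  rcases key with key | key
  · obtain ⟨x, hx, h1, h2⟩ := firstChange hn Finset.subset_union_left hNY hz hX hV1 hN1 hV2 hNV key
    have hx' := hx
    rw [Finset.mem_union, not_or] at hx'
    refine ⟨x, ?_⟩
    by_cases h3 : x - 1 ∈ N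
    · right
      refine ⟨hx'.1, hx'.2, ?_, ?_, Or.inr ?_⟩
      · rw [Finset.mem_sdiff]; tauto
      · rw [Finset.mem_sdiff]; tauto
      · intro y hy hlt
        have h4 := h2 y hy hlt
        have h5 := hYdis y hy
        rw [Finset.mem_sdiff]
        tauto
    · left
      exact ⟨hx'.1, hx'.2, h3, fun h4 => h3 (h1.2 h4), Or.inl h2⟩
  · obtain ⟨x, hx, h1, h2⟩ := firstChange hn Finset.subset_union_right hNY hz hX hW1 hN1 hW2 hNW key
    have hx' := hx
    rw [Finset.mem_union, not_or] at hx'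
    refine ⟨x, ?_⟩
    by_cases h3 : x - 1 ∈ N
    · right
      refine ⟨hx'.1, hx'.2, ?_, ?_, Or.inl ?_⟩
      · rw [Finset.mem_sdiff]; tauto
      · rw [Finset.mem_sdiff]; tauto
      · intro y hy hlt
        have h4 := h2 y hy hlt
        have h5 := hYdis y hy
        rw [Finset.mem_sdiff]
        tauto
    · left
      exact ⟨hx'.1, hx'.2, h3, fun h4 => h3 (h1.2 h4), Or.inr h2⟩

lemma ord_add (hn : 3 ≤ n) (z : ZMod n) (s : ℕ) (hs : s < n) : ord z (z + 1 + (s : ZMod n)) = s := by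
  unfold ord
  rw [show z + 1 + (s : ZMod n) - z - 1 = (s : ZMod n) by ring, ZMod.val_natCast,
    Nat.mod_eq_of_lt hs]

lemma core (hn : 3 ≤ n) (h : Setup2 V W k) {z : ZMod n} (hzV : z ∉ V) (hzW : z ∉ W) {d : ℕ}
    (hnd : n = 2 * k + d) (hlong : ∀ s : ℕ, s < 2 * d → z + 1 + (s : ZMod n) ∈ V ∪ W)
    {S : Finset (ZMod n)} (hS : Stable S) (hSk : S.card = k) {i : ZMod n}
    (hiS : i ∈ S) (hiV : i ∉ V) (hiW : i ∉ W)
    (himax : ∀ x, x ∈ S → x ∉ V → x ∉ W → ord z x ≤ ord z i)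
    {N : Finset (ZMod n)} (hNY : N ⊆ V ∪ W) (hNk : N.card = k) (hi1 : i - 1 ∉ N) (hi2 : i + 1 ∉ N)
    (hag : ∀ y, y ∈ V ∪ W → ord z y < ord z i → (y ∈ N ↔ y ∈ W)) (hdis : Disjoint S N)
    (hcon : ∀ x, x ∈ S → x ∉ V → x ∉ W →
      ∃ N, Prob V W k N ∧ R V W z N x ∧ Disjoint S N) : False := by
  classical
  have : NeZero n := ⟨by omega⟩
  set I := S.filter (fun x => x ∉ V ∧ x ∉ W) with hI
  have hmemI : ∀ x, x ∈ I ↔ x ∈ S ∧ x ∉ V ∧ x ∉ W := fun x => Finset.mem_filter
  have hi : i ∈ I := (hmemI i).2 ⟨hiS, hiV, hiW⟩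
  have himax' : ∀ x, x ∈ I → ord z x ≤ ord z i := fun x hx =>
    himax x ((hmemI x).1 hx).1 ((hmemI x).1 hx).2.1 ((hmemI x).1 hx).2.2
  have hVW : ∀ y, y ∈ V → y ∉ W := fun y hy hy' => Finset.disjoint_left.1 h.hd hy hy'
  have hSN : ∀ y, y ∈ S → y ∉ N := fun y hy hy' => Finset.disjoint_left.1 hdis hy hy'
  have hX1 : ∀ x, x ∉ V → x ∉ W → x - 1 ∈ V ∪ W ∧ x + 1 ∈ V ∪ W := by
    intro x hx hx'
    rcases h.nb x hx hx' with h1 | h1
    · exact ⟨Finset.mem_union_left _ h1.1, Finset.mem_union_right _ h1.2⟩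
    · exact ⟨Finset.mem_union_right _ h1.1, Finset.mem_union_left _ h1.2⟩
  have hzY : ∀ y, y ∈ V ∪ W → y ≠ z := by
    rintro y hy rfl
    rcases Finset.mem_union.1 hy with h1 | h1
    · exact hzV h1
    · exact hzW h1
  set B := (V ∪ W) \ N with hB
  have hmemB : ∀ y, y ∈ B ↔ y ∈ V ∪ W ∧ y ∉ N := fun y => Finset.mem_sdiff
  have hYk : (V ∪ W).card = 2 * k := by
    rw [Finset.card_union_of_disjoint h.hd, h.cV, h.cW]
    ring
  have hBk : B.card = k := by
    rw [hB, Finset.card_sdiff_of_subset hNY, hYk, hNk]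
    omega
  have hcard : I.card = (B \ S).card := by
    have h1 : B ∩ S = S \ I := by
      ext x
      rw [Finset.mem_inter, hmemB, Finset.mem_sdiff, hmemI, Finset.mem_union]
      have := hSN x
      tauto
    have h2 : (B \ S).card + (B ∩ S).card = B.card := Finset.card_sdiff_add_card_inter B S
    have h3 : (S \ I).card = S.card - I.card :=
      Finset.card_sdiff_of_subset (Finset.filter_subset _ _)
    have h4 : I.card ≤ S.card := Finset.card_le_card (Finset.filter_subset _ _)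
    rw [h1, h3] at h2
    omega
  have hId : I.card ≤ d := by
    have h1 : I ⊆ Finset.univ \ (V ∪ W) := by
      intro x hx
      have h2 := (hmemI x).1 hx
      rw [Finset.mem_sdiff, Finset.mem_union, not_or]
      exact ⟨Finset.mem_univ _, h2.2⟩
    have h2 := Finset.card_le_card h1
    rw [Finset.card_sdiff_of_subset (Finset.subset_univ _), hYk, Finset.card_univ, ZMod.card] at h2
    omega
  have hiz : i ≠ z := by
    intro hiz
    have h1 := hX1 i hiV hiW
    have h2 : ord z (i - 1) < ord z i := by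
      have := ord_lt_self hn (hzY _ h1.1)
      rwa [hiz] at this ⊢
    have h3 : ord z (i + 1) < ord z i := by
      have := ord_lt_self hn (hzY _ h1.2)
      rwa [hiz] at this ⊢
    have h4 := hag _ h1.1 h2
    have h5 := hag _ h1.2 h3
    rcases h.nb i hiV hiW with h6 | h6
    · exact hi2 (h5.2 h6.2)
    · exact hi1 (h4.2 h6.1)
  have hilt := ord_lt_self hn hiz
  have hord1 : ∀ m, m ∈ I → ord z (m + 1) = ord z m + 1 := by
    intro m hm
    apply ord_succ hn
    rintro rfl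
    have := himax' _ hm
    omega
  have hord2 : ∀ m, m ∈ I → ord z m = ord z (m - 1) + 1 := by
    intro m hm
    apply ord_pred hn
    rintro rfl
    have h1 := (hX1 z hzV hzW).2
    have h2 := (hmemI _).1 hm
    rw [Finset.mem_union] at h1
    tauto
  have hlt : ∀ m, m ∈ I → m ≠ i → ord z (m + 1) < ord z i := by
    intro m hm hmi
    have h1 := himax' m hm
    have h2 : ord z m ≠ ord z i := fun h2 => hmi (ord_inj z h2)
    have h3 := hord1 m hm
    have h4 : ord z (m + 1) ≠ ord z i := by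
      intro h4
      have h5 := ord_inj z h4
      have h6 := (hX1 m ((hmemI m).1 hm).2.1 ((hmemI m).1 hm).2.2).2
      rw [h5, Finset.mem_union] at h6
      tauto
    omega
  have hq : i + 1 ∈ B \ S := by
    rw [Finset.mem_sdiff, hmemB]
    exact ⟨⟨(hX1 i hiV hiW).2, hi2⟩, hS i hiS⟩
  have hoi := hord1 i hi
  have hoi2 := hord2 i hi
  have hiB : i - 1 ∈ B := (hmemB _).2 ⟨(hX1 i hiV hiW).1, hi1⟩
  have hagB : ∀ y, y ∈ V ∪ W → ord z y < ord z i → (y ∈ B ↔ y ∈ V) := by
    intro y hy hlt'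
    have h1 := hag y hy hlt'
    rw [hmemB]
    have h2 := Finset.mem_union.1 hy
    have h3 := hVW y
    tauto
  have hiV' : i - 1 ∈ V := (hagB _ (hX1 i hiV hiW).1 (by omega)).1 hiB
  by_cases hT : ∃ j, j ∈ I ∧ j + 2 ∈ I ∧ j + 1 ∈ V
  · obtain ⟨j, hjI, hj2, hj1V⟩ := hT
    obtain ⟨hjS, hjV, hjW⟩ := (hmemI j).1 hjI
    obtain ⟨N', -, hNR', hdis'⟩ := hcon j hjS hjV hjW
    obtain ⟨-, -, hj1, hj3, hag'⟩ := hNR'
    have hjVW := hVW (j + 1)
    have hjW1 : j - 1 ∈ W := by
      rcases h.nb j hjV hjW with h1 | h1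
      · exact absurd h1.2 (hjVW hj1V)
      · exact h1.1
    have hoj := hord2 j hjI
    have hagV : ∀ y, y ∈ V ∪ W → ord z y < ord z j → (y ∈ N' ↔ y ∈ V) := by
      rcases hag' with h1 | h1
      · exact h1
      · exfalso
        exact hj1 ((h1 (j - 1) (Finset.mem_union_right _ hjW1) (by omega)).2 hjW1)
    have hji := himax' j hjI
    have hnV : ∀ v, v ∈ V → ord z v < ord z j → v ∈ B \ S := by
      intro v hv hvj
      rw [Finset.mem_sdiff]
      refine ⟨(hagB v (Finset.mem_union_left _ hv) (by omega)).2 hv, fun hvS => ?_⟩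
      exact Finset.disjoint_left.1 hdis' hvS ((hagV v (Finset.mem_union_left _ hv) hvj).2 hv)
    have hin : ord z i < n := ZMod.val_lt _
    have hdn : 2 * d ≤ ord z j := by
      by_contra hlt'
      push Not at hlt'
      have h1 := hlong _ hlt'
      have h2 : z + 1 + ((ord z j : ℕ) : ZMod n) = j := by
        unfold ord
        rw [ZMod.natCast_zmod_val]
        ring
      rw [h2, Finset.mem_union] at h1
      tauto
    set f : ℕ → ZMod n := fun s => if z + 1 + ((2 * s : ℕ) : ZMod n) ∈ V then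
      z + 1 + ((2 * s : ℕ) : ZMod n) else z + 1 + ((2 * s + 1 : ℕ) : ZMod n) with hf
    have hfV : ∀ s, s < d → f s ∈ V ∧ (ord z (f s) = 2 * s ∨ ord z (f s) = 2 * s + 1) := by
      intro s hs
      simp only [hf]
      split_ifs with h1
      · exact ⟨h1, Or.inl (ord_add hn z _ (by omega))⟩
      · refine ⟨?_, Or.inr (ord_add hn z _ (by omega))⟩
        have h2 := hlong (2 * s) (by omega)
        have h3 := hlong (2 * s + 1) (by omega)
        rw [Finset.mem_union] at h2 h3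
        have h4 := h2.resolve_left h1
        have h5 := h.hW _ h4
        have h6 : z + 1 + ((2 * s + 1 : ℕ) : ZMod n) = z + 1 + ((2 * s : ℕ) : ZMod n) + 1 := by
          push_cast
          ring
        rw [h6] at h3 ⊢
        exact h3.resolve_right h5
    have hle : ((Finset.range d).card : ℕ) ≤ ((B \ S).erase (i + 1)).card := by
      apply Finset.card_le_card_of_injOn f
      · intro s hs
        have hs' := Finset.mem_range.1 (Finset.mem_coe.1 hs)
        obtain ⟨h1, h2⟩ := hfV s hs'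
        have h3 : ord z (f s) < ord z j := by omega
        refine Finset.mem_coe.2 (Finset.mem_erase.2 ⟨?_, hnV _ h1 h3⟩)
        intro h4
        rw [h4] at h3
        omega
      · intro a ha b hb hab
        have h1 := (hfV a (Finset.mem_range.1 (Finset.mem_coe.1 ha))).2
        have h2 := (hfV b (Finset.mem_range.1 (Finset.mem_coe.1 hb))).2
        rw [hab] at h1
        omega
    rw [Finset.card_range, Finset.card_erase_of_mem hq] at hle
    have := Finset.card_pos.2 ⟨_, hq⟩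
    omega
  · set o : ZMod n → ZMod n := fun m => if m - 1 ∈ V then m - 1 else m + 1 with ho
    have hprop : ∀ m, m ∈ I → o m ∈ V ∧ ord z (o m) < ord z i ∧ o m ∉ S := by
      intro m hm
      obtain ⟨hmS, hmV, hmW⟩ := (hmemI m).1 hm
      simp only [ho]
      split_ifs with h1
      · have h2 := hord2 m hm
        have h3 := himax' m hm
        exact ⟨h1, by omega, hS.pred hmS⟩
      · have h2 := h.nb m hmV hmW
        have h3 : m ≠ i := by
          rintro rfl
          exact h1 hiV'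
        refine ⟨?_, hlt m hm h3, hS m hmS⟩
        rcases h2 with h2 | h2
        · exact absurd h2.1 h1
        · exact h2.2
    have hcase : ∀ m, m = o m + 1 ∨ m = o m - 1 := by
      intro m
      simp only [ho]
      split_ifs
      · left; ring
      · right; ring
    refine count hcard o hq ?_ ?_ ?_
    · intro m hm
      obtain ⟨h1, h2, h3⟩ := hprop m hm
      have h4 : o m ∈ V ∪ W := Finset.mem_union_left _ h1
      exact Finset.mem_sdiff.2 ⟨(hagB _ h4 h2).2 h1, h3⟩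
    · intro m hm hmq
      have h1 := (hprop m hm).2.1
      rw [hmq] at h1
      omega
    · have main : ∀ p, p ∈ V → p - 1 ∈ I → p + 1 ∈ I → False := by
        intro p hp h1 h2
        exact hT ⟨p - 1, h1, by rw [show p - 1 + 2 = p + 1 by ring]; exact h2,
          by rw [sub_add_cancel]; exact hp⟩
      intro m hm m' hm' heq
      have hpW := (hprop m hm).1
      rcases hcase m with h1 | h1 <;> rcases hcase m' with h2 | h2
      · rw [h1, h2, heq]
      · exfalso
        refine main _ hpW ?_ ?_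
        · rw [heq, ← h2]; exact hm'
        · rw [← h1]; exact hm
      · exfalso
        refine main _ hpW ?_ ?_
        · rw [← h1]; exact hm
        · rw [heq, ← h2]; exact hm'
      · rw [h1, h2, heq]

lemma lemB2 (hn : 3 ≤ n) (h : Setup2 V W k) {z : ZMod n} (hzV : z ∉ V) (hzW : z ∉ W) {d : ℕ}
    (hnd : n = 2 * k + d) (hlong : ∀ s : ℕ, s < 2 * d → z + 1 + (s : ZMod n) ∈ V ∪ W)
    {S : Finset (ZMod n)} (hS : Stable S) (hSk : S.card = k) (hSX : ∃ x ∈ S, x ∉ V ∧ x ∉ W) :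
    ∃ x ∈ S, x ∉ V ∧ x ∉ W ∧ ∀ N, Prob V W k N → R V W z N x → ¬ Disjoint S N := by
  classical
  obtain ⟨i, hi, himax⟩ := Finset.exists_max_image (S.filter (fun x => x ∉ V ∧ x ∉ W)) (ord z) (by
    obtain ⟨x, hx, hx'⟩ := hSX
    exact ⟨x, Finset.mem_filter.2 ⟨hx, hx'⟩⟩)
  obtain ⟨hiS, hiV, hiW⟩ := Finset.mem_filter.1 hi
  have himax' : ∀ x, x ∈ S → x ∉ V → x ∉ W → ord z x ≤ ord z i :=
    fun x h1 h2 h3 => himax x (Finset.mem_filter.2 ⟨h1, h2, h3⟩)
  by_contra hcon
  push Not at hcon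
  obtain ⟨N, hNP, hNR, hdis⟩ := hcon i hiS hiV hiW
  obtain ⟨hNY, hNk, hNS, hNS'⟩ := hNP
  obtain ⟨-, -, hi1, hi2, hag⟩ := hNR
  rcases hag with hag | hag
  · refine core hn h.swap hzW hzV hnd ?_ hS hSk hiS hiW hiV (fun x a b c => himax' x a c b)
      (by rwa [Finset.union_comm]) hNk hi1 hi2 ?_ hdis ?_
    · intro s hs
      rw [Finset.union_comm]
      exact hlong s hs
    · intro y hy
      rw [Finset.union_comm] at hy
      exact hag y hy
    · intro x a b c
      obtain ⟨N, h1, h2, h3⟩ := hcon x a c b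
      exact ⟨N, h1.swap, h2.swap, h3⟩
  · exact core hn h hzV hzW hnd hlong hS hSk hiS hiV hiW himax' hNY hNk hi1 hi2 hag hdis hcon

end Pool.Agent.X80.SG
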