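import Mathlib
import Pool.Agent.X80.Schrijver2

/-!
# Critical interlacing edges of Schrijver graphs: the colouring
-/

set_option autoImplicit false

namespace Pool.Agent.X80.SG

open Finset

variable {n : ℕ} {k : ℕ}

theorem colorable_of (hn : 3 ≤ n) (V W : Vert n k) (h : Setup2 V.1 W.1 k) (z : ZMod n)
    (hzY : z + 1 ∈ V.1 ∪ W.1)
    (hB : ∀ S : Vert n k, (∃ x ∈ S.1, x ∉ V.1 ∧ x ∉ W.1) →
      ∃ x ∈ S.1, x ∉ V.1 ∧ x ∉ W.1 ∧ ∀ N, Prob V.1 W.1 k N → R V.1 W.1 z N x →
        ¬ Disjoint S.1 N) :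
    ((SG n k).deleteEdges {s(V, W)}).Colorable (n - 2 * k + 1) := by
  classical
  have : NeZero n := ⟨by omega⟩
  have hVW : ∀ y, y ∈ V.1 → y ∉ W.1 := fun y hy hy' => Finset.disjoint_left.1 h.hd hy hy'
  let C := {x : ZMod n // x ∉ V.1 ∧ x ∉ W.1}
  have hYk : (V.1 ∪ W.1).card = 2 * k := by
    rw [Finset.card_union_of_disjoint h.hd, h.cV, h.cW]
    ring
  have hcardC : Fintype.card (Option C) = n - 2 * k + 1 := by
    rw [Fintype.card_option]
    congr 1
    have h1 : Fintype.card C = (Finset.univ \ (V.1 ∪ W.1)).card := by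
      rw [Fintype.card_subtype]
      congr 1
      ext x
      simp only [Finset.mem_filter, Finset.mem_univ, true_and, Finset.mem_sdiff, Finset.mem_union,
        not_or]
    rw [h1, Finset.card_sdiff_of_subset (Finset.subset_univ _), hYk, Finset.card_univ, ZMod.card]
  let G : Vert n k → C → Prop := fun S x => x.1 ∈ S.1 ∧
    ∀ N, Prob V.1 W.1 k N → R V.1 W.1 z N x.1 → ¬ Disjoint S.1 N
  let H : Vert n k → C → Prop := fun S x => Prob V.1 W.1 k S.1 ∧ R V.1 W.1 z S.1 x.1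
  let col : Vert n k → Option C := fun S =>
    if h1 : ∃ x, G S x then some h1.choose else
      if h2 : ∃ x, H S x then some h2.choose else none
  have colG : ∀ S, (∃ x, G S x) → ∃ x, col S = some x ∧ G S x := by
    intro S h1
    refine ⟨h1.choose, ?_, h1.choose_spec⟩
    simp only [col, dif_pos h1]
  have colH : ∀ S, (¬ ∃ x, G S x) → (∃ x, H S x) → ∃ x, col S = some x ∧ H S x := by
    intro S h1 h2
    refine ⟨h2.choose, ?_, h2.choose_spec⟩
    simp only [col, dif_neg h1, dif_pos h2]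
  have colN : ∀ S, (¬ ∃ x, G S x) → (¬ ∃ x, H S x) → col S = none := by
    intro S h1 h2
    simp only [col, dif_neg h1, dif_neg h2]
  have col1 : ∀ S x, col S = some x → G S x ∨ H S x := by
    intro S x hx
    by_cases h1 : ∃ x, G S x
    · obtain ⟨y, hy, hy'⟩ := colG S h1
      rw [hx, Option.some.injEq] at hy
      rw [hy]; exact Or.inl hy'
    · by_cases h2 : ∃ x, H S x
      · obtain ⟨y, hy, hy'⟩ := colH S h1 h2
        rw [hx, Option.some.injEq] at hy
        rw [hy]; exact Or.inr hy'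
      · rw [colN S h1 h2] at hx
        exact absurd hx (by simp)
  have key : ∀ S T : Vert n k, Disjoint S.1 T.1 → col S = col T →
      (∃ x ∈ S.1, x ∉ V.1 ∧ x ∉ W.1) → False := by
    intro S T hd hc hx
    obtain ⟨x, hxS, hxV, hxW, hxG⟩ := hB S hx
    obtain ⟨y, hy, hyG⟩ := colG S ⟨⟨x, hxV, hxW⟩, hxS, hxG⟩
    rw [hy] at hc
    rcases col1 T y hc.symm with h1 | h1
    · exact Finset.disjoint_left.1 hd hyG.1 h1.1
    · exact hyG.2 _ h1.1 h1.2 hd
  have hvalid : ∀ {S T : Vert n k}, ((SG n k).deleteEdges {s(V, W)}).Adj S T → col S ≠ col T := by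
    intro S T hST hc
    rw [SimpleGraph.deleteEdges_adj] at hST
    obtain ⟨⟨hne, hd⟩, hnot⟩ := hST
    by_cases hS : ∃ x ∈ S.1, x ∉ V.1 ∧ x ∉ W.1
    · exact key S T hd hc hS
    by_cases hT : ∃ x ∈ T.1, x ∉ V.1 ∧ x ∉ W.1
    · exact key T S hd.symm hc.symm hT
    have hSY : S.1 ⊆ V.1 ∪ W.1 := by
      intro x hx
      rw [Finset.mem_union]
      by_contra h1
      rw [not_or] at h1
      exact hS ⟨x, hx, h1⟩
    have hTY : T.1 ⊆ V.1 ∪ W.1 := by
      intro x hx
      rw [Finset.mem_union]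
      by_contra h1
      rw [not_or] at h1
      exact hT ⟨x, hx, h1⟩
    have hTS : T.1 = (V.1 ∪ W.1) \ S.1 := by
      apply Finset.eq_of_subset_of_card_le
      · intro x hx
        exact Finset.mem_sdiff.2 ⟨hTY hx, fun h1 => Finset.disjoint_left.1 hd h1 hx⟩
      · rw [Finset.card_sdiff_of_subset hSY, hYk, S.2.1, T.2.1]
        omega
    have hSne : S.1 ≠ V.1 := by
      intro h1
      apply hnot
      have h2 : T.1 = W.1 := by
        rw [hTS, h1]
        ext y
        rw [Finset.mem_sdiff, Finset.mem_union]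
        have := hVW y
        tauto
      rw [Set.mem_singleton_iff, show S = V from Subtype.ext h1, show T = W from Subtype.ext h2]
    have hSne' : S.1 ≠ W.1 := by
      intro h1
      apply hnot
      have h2 : T.1 = V.1 := by
        rw [hTS, h1]
        ext y
        rw [Finset.mem_sdiff, Finset.mem_union]
        have := hVW y
        tauto
      rw [Set.mem_singleton_iff, show S = W from Subtype.ext h1, show T = V from Subtype.ext h2]
      exact Sym2.eq_swap
    have hPS : Prob V.1 W.1 k S.1 := ⟨hSY, S.2.1, S.2.2, by rw [← hTS]; exact T.2.2⟩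
    have hPT : Prob V.1 W.1 k T.1 := by
      refine ⟨hTY, T.2.1, T.2.2, ?_⟩
      rw [hTS, Finset.sdiff_sdiff_eq_self hSY]
      exact S.2.2
    have hnG : ∀ U : Vert n k, (¬ ∃ x ∈ U.1, x ∉ V.1 ∧ x ∉ W.1) → ¬ ∃ x, G U x := by
      rintro U hU ⟨x, hx, _⟩
      exact hU ⟨x.1, hx, x.2⟩
    have hsome : ∃ y, col S = some y := by
      obtain ⟨x, hx⟩ := lemA2 hn h hzY hPS hSne hSne'
      rcases hx with hx | hx
      · obtain ⟨y, hy, -⟩ := colH S (hnG S hS) ⟨⟨x, hx.1, hx.2.1⟩, hPS, hx⟩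
        exact ⟨y, hy⟩
      · rw [← hTS] at hx
        obtain ⟨y, hy, -⟩ := colH T (hnG T hT) ⟨⟨x, hx.1, hx.2.1⟩, hPT, hx⟩
        exact ⟨y, by rw [hc, hy]⟩
    obtain ⟨y, hy⟩ := hsome
    have hyS := (col1 S y hy).resolve_left (fun h1 => hnG S hS ⟨y, h1⟩)
    have hyT := (col1 T y (by rw [← hc, hy])).resolve_left (fun h1 => hnG T hT ⟨y, h1⟩)
    have hmem : y.1 - 1 ∈ V.1 ∪ W.1 := by
      rcases h.nb y.1 y.2.1 y.2.2 with h1 | h1
      · exact Finset.mem_union_left _ h1.1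
      · exact Finset.mem_union_right _ h1.1
    apply hyT.2.2.2.1
    rw [hTS, Finset.mem_sdiff]
    exact ⟨hmem, hyS.2.2.2.1⟩
  have hcol : ((SG n k).deleteEdges {s(V, W)}).Colorable (Fintype.card (Option C)) :=
    (SimpleGraph.Coloring.mk col hvalid).colorable
  rwa [hcardC] at hcol

lemma exists_long [NeZero n] {Y : Finset (ZMod n)} {d L : ℕ} (hX : (Finset.univ \ Y).card = d)
    (hd : 0 < d) (hL : d * L < n) : ∃ z, z ∉ Y ∧ ∀ s : ℕ, s < L → z + 1 + (s : ZMod n) ∈ Y := by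
  classical
  by_contra hcon
  push Not at hcon
  obtain ⟨x, hx⟩ := Finset.card_pos.1 (by rw [hX]; exact hd : 0 < (Finset.univ \ Y).card)
  rw [Finset.mem_sdiff] at hx
  have hcov : ∀ y : ZMod n, ∃ z, z ∉ Y ∧ ∃ s : ℕ, s < L ∧ y = z + 1 + (s : ZMod n) := by
    intro y
    have hex : ∃ s : ℕ, y - 1 - (s : ZMod n) ∉ Y := by
      refine ⟨(y - 1 - x).val, ?_⟩
      rw [ZMod.natCast_zmod_val, sub_sub_cancel]
      exact hx.2
    refine ⟨_, Nat.find_spec hex, Nat.find hex, ?_, by ring⟩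
    by_contra hlt
    push Not at hlt
    obtain ⟨s', hs', hs'Y⟩ := hcon _ (Nat.find_spec hex)
    have h1 : Nat.find hex - 1 - s' < Nat.find hex := by omega
    apply Nat.find_min hex h1
    have h2 : ((Nat.find hex - 1 - s' : ℕ) : ZMod n) = (Nat.find hex : ZMod n) - 1 - (s' : ZMod n) := by
      rw [Nat.cast_sub (by omega), Nat.cast_sub (by omega)]
      push_cast
      ring
    rw [h2]
    rw [show y - 1 - ((Nat.find hex : ZMod n) - 1 - (s' : ZMod n)) =
      y - 1 - (Nat.find hex : ZMod n) + 1 + (s' : ZMod n) by ring]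
    exact hs'Y
  have h1 : (Finset.univ : Finset (ZMod n)) ⊆
      ((Finset.univ \ Y) ×ˢ Finset.range L).image (fun p => p.1 + 1 + ((p.2 : ℕ) : ZMod n)) := by
    intro y _
    obtain ⟨z, hz, s, hs, rfl⟩ := hcov y
    exact Finset.mem_image.2 ⟨(z, s), Finset.mem_product.2
      ⟨Finset.mem_sdiff.2 ⟨Finset.mem_univ _, hz⟩, Finset.mem_range.2 hs⟩, rfl⟩
  have h2 := (Finset.card_le_card h1).trans Finset.card_image_le
  rw [Finset.card_univ, ZMod.card, Finset.card_product, Finset.card_range, hX] at h2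
  omega

/-- Between two elements of `V ∪ W` which follow each other on the cycle exactly one element
belongs to `V`: the elements of `V ∪ W` lie alternately in `V` and in `W`. -/
def Interlacing (V W : Finset (ZMod n)) : Prop :=
  ∀ y, y ∈ V ∪ W → ∀ r : ℕ, 1 ≤ r → y + (r : ZMod n) ∈ V ∪ W →
    (∀ s : ℕ, 1 ≤ s → s < r → y + (s : ZMod n) ∉ V ∪ W) → (y ∈ V ↔ y + (r : ZMod n) ∈ W)

theorem colorable_interlacing (hn : 3 ≤ n) {d : ℕ} (hnd : n = 2 * k + d) (hdk : d ^ 2 ≤ k)
    (V W : Vert n k) (hadj : (SG n k).Adj V W) (hint : Interlacing V.1 W.1)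
    (hiso : ∀ x, x ∉ V.1 ∪ W.1 → x + 1 ∈ V.1 ∪ W.1) :
    ((SG n k).deleteEdges {s(V, W)}).Colorable (n - 2 * k + 1) := by
  classical
  have : NeZero n := ⟨by omega⟩
  have hnb : ∀ x, x ∉ V.1 → x ∉ W.1 →
      (x - 1 ∈ V.1 ∧ x + 1 ∈ W.1) ∨ (x - 1 ∈ W.1 ∧ x + 1 ∈ V.1) := by
    intro x hxV hxW
    have hx : x ∉ V.1 ∪ W.1 := by rw [Finset.mem_union]; tauto
    have h1 := hiso x hx
    have h2 : x - 1 ∈ V.1 ∪ W.1 := by
      by_contra h3
      have h4 := hiso _ h3
      rw [sub_add_cancel] at h4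
      exact hx h4
    have h3 := hint (x - 1) h2 2 (by norm_num) (by
      rw [show x - 1 + ((2 : ℕ) : ZMod n) = x + 1 by push_cast; ring]
      exact h1) (by
      intro s hs1 hs2
      have hs : s = 1 := by omega
      rw [hs, Nat.cast_one, sub_add_cancel]
      exact hx)
    rw [show x - 1 + ((2 : ℕ) : ZMod n) = x + 1 by push_cast; ring] at h3
    rw [Finset.mem_union] at h1 h2
    tauto
  have h : Setup2 V.1 W.1 k := ⟨V.2.2, W.2.2, hadj.2, V.2.1, W.2.1, hnb⟩
  have hYk : (V.1 ∪ W.1).card = 2 * k := by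
    rw [Finset.card_union_of_disjoint h.hd, h.cV, h.cW]
    ring
  have hXd : (Finset.univ \ (V.1 ∪ W.1)).card = d := by
    rw [Finset.card_sdiff_of_subset (Finset.subset_univ _), hYk, Finset.card_univ, ZMod.card]
    omega
  rcases Nat.eq_zero_or_pos d with hd0 | hd0
  · have hall : ∀ x, x ∈ V.1 ∪ W.1 := by
      intro x
      by_contra hx
      have h1 : 0 < (Finset.univ \ (V.1 ∪ W.1)).card :=
        Finset.card_pos.2 ⟨x, Finset.mem_sdiff.2 ⟨Finset.mem_univ _, hx⟩⟩
      omega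
    refine colorable_of hn V W h 0 (hall _) ?_
    rintro S ⟨x, _, hx1, hx2⟩
    have h3 := hall x
    rw [Finset.mem_union] at h3
    tauto
  · have hL : d * (2 * d) < n := by
      have h1 : d * (2 * d) = 2 * d ^ 2 := by ring
      rw [h1, hnd]
      omega
    obtain ⟨z, hzX, hlong⟩ := exists_long hXd hd0 hL
    have hz := hzX
    rw [Finset.mem_union, not_or] at hz
    have hz1 : z + 1 ∈ V.1 ∪ W.1 := hiso z hzX
    exact colorable_of hn V W h z hz1
      (fun S hS => lemB2 hn h hz.1 hz.2 hnd hlong S.2.2 S.2.1 hS)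

end Pool.Agent.X80.SG
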