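import Mathlib
import Pool.Agent.X80.Schrijver3

/-!
# Interlacing edges of Schrijver graphs with one run of free elements
-/

set_option autoImplicit false

namespace Pool.Agent.X80.SG

open Finset

variable {n : ℕ} {k : ℕ}

theorem colorable_gen (hn : 3 ≤ n) (V W : Vert n k) (hd : Disjoint V.1 W.1)
    (Q : Finset (ZMod n) → ZMod n → Prop)
    (hQ : ∀ N x, Q N x → x ∉ V.1 ∧ x ∉ W.1 ∧ x - 1 ∈ V.1 ∪ W.1 ∧ x - 1 ∉ N)
    (hA : ∀ N, Prob V.1 W.1 k N → N ≠ V.1 → N ≠ W.1 →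
      ∃ x, Q N x ∨ Q ((V.1 ∪ W.1) \ N) x)
    (hB : ∀ S : Vert n k, (∃ x ∈ S.1, x ∉ V.1 ∧ x ∉ W.1) →
      ∃ x ∈ S.1, x ∉ V.1 ∧ x ∉ W.1 ∧ ∀ N, Prob V.1 W.1 k N → Q N x →
        ¬ Disjoint S.1 N) :
    ((SG n k).deleteEdges {s(V, W)}).Colorable (n - 2 * k + 1) := by
  classical
  have : NeZero n := ⟨by omega⟩
  have hVW : ∀ y, y ∈ V.1 → y ∉ W.1 := fun y hy hy' => Finset.disjoint_left.1 hd hy hy'
  let C := {x : ZMod n // x ∉ V.1 ∧ x ∉ W.1}
  have hYk : (V.1 ∪ W.1).card = 2 * k := by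
    rw [Finset.card_union_of_disjoint hd, V.2.1, W.2.1]
    ring
  have hcardC : Fintype.card (Option C) = n - 2 * k + 1 := by
    rw [Fintype.card_option]
    congr 1
    have h1 : Fintype.card C = (Finset.univ \ (V.1 ∪ W.1)).card := by
      rw [Fintype.card_subtype]
      congr 1
      ext x
      simp only [Finset.mem_filter, Finset.mem_univ, true_and, Finset.mem_sdiff, Finset.mem_union,
        not_or]
    rw [h1, Finset.card_sdiff_of_subset (Finset.subset_univ _), hYk, Finset.card_univ, ZMod.card]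
  let G : Vert n k → C → Prop := fun S x => x.1 ∈ S.1 ∧
    ∀ N, Prob V.1 W.1 k N → Q N x.1 → ¬ Disjoint S.1 N
  let H : Vert n k → C → Prop := fun S x => Prob V.1 W.1 k S.1 ∧ Q S.1 x.1
  let col : Vert n k → Option C := fun S =>
    if h1 : ∃ x, G S x then some h1.choose else
      if h2 : ∃ x, H S x then some h2.choose else none
  have colG : ∀ S, (∃ x, G S x) → ∃ x, col S = some x ∧ G S x := by
    intro S h1
    refine ⟨h1.choose, ?_, h1.choose_spec⟩
    simp only [col, dif_pos h1]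
  have colH : ∀ S, (¬ ∃ x, G S x) → (∃ x, H S x) → ∃ x, col S = some x ∧ H S x := by
    intro S h1 h2
    refine ⟨h2.choose, ?_, h2.choose_spec⟩
    simp only [col, dif_neg h1, dif_pos h2]
  have colN : ∀ S, (¬ ∃ x, G S x) → (¬ ∃ x, H S x) → col S = none := by
    intro S h1 h2
    simp only [col, dif_neg h1, dif_neg h2]
  have col1 : ∀ S x, col S = some x → G S x ∨ H S x := by
    intro S x hx
    by_cases h1 : ∃ x, G S x
    · obtain ⟨y, hy, hy'⟩ := colG S h1
      rw [hx, Option.some.injEq] at hy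
      rw [hy]; exact Or.inl hy'
    · by_cases h2 : ∃ x, H S x
      · obtain ⟨y, hy, hy'⟩ := colH S h1 h2
        rw [hx, Option.some.injEq] at hy
        rw [hy]; exact Or.inr hy'
      · rw [colN S h1 h2] at hx
        exact absurd hx (by simp)
  have key : ∀ S T : Vert n k, Disjoint S.1 T.1 → col S = col T →
      (∃ x ∈ S.1, x ∉ V.1 ∧ x ∉ W.1) → False := by
    intro S T hd hc hx
    obtain ⟨x, hxS, hxV, hxW, hxG⟩ := hB S hx
    obtain ⟨y, hy, hyG⟩ := colG S ⟨⟨x, hxV, hxW⟩, hxS, hxG⟩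
    rw [hy] at hc
    rcases col1 T y hc.symm with h1 | h1
    · exact Finset.disjoint_left.1 hd hyG.1 h1.1
    · exact hyG.2 _ h1.1 h1.2 hd
  have hvalid : ∀ {S T : Vert n k}, ((SG n k).deleteEdges {s(V, W)}).Adj S T → col S ≠ col T := by
    intro S T hST hc
    rw [SimpleGraph.deleteEdges_adj] at hST
    obtain ⟨⟨hne, hd⟩, hnot⟩ := hST
    by_cases hS : ∃ x ∈ S.1, x ∉ V.1 ∧ x ∉ W.1
    · exact key S T hd hc hS
    by_cases hT : ∃ x ∈ T.1, x ∉ V.1 ∧ x ∉ W.1
    · exact key T S hd.symm hc.symm hT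
    have hSY : S.1 ⊆ V.1 ∪ W.1 := by
      intro x hx
      rw [Finset.mem_union]
      by_contra h1
      rw [not_or] at h1
      exact hS ⟨x, hx, h1⟩
    have hTY : T.1 ⊆ V.1 ∪ W.1 := by
      intro x hx
      rw [Finset.mem_union]
      by_contra h1
      rw [not_or] at h1
      exact hT ⟨x, hx, h1⟩
    have hTS : T.1 = (V.1 ∪ W.1) \ S.1 := by
      apply Finset.eq_of_subset_of_card_le
      · intro x hx
        exact Finset.mem_sdiff.2 ⟨hTY hx, fun h1 => Finset.disjoint_left.1 hd h1 hx⟩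
      · rw [Finset.card_sdiff_of_subset hSY, hYk, S.2.1, T.2.1]
        omega
    have hSne : S.1 ≠ V.1 := by
      intro h1
      apply hnot
      have h2 : T.1 = W.1 := by
        rw [hTS, h1]
        ext y
        rw [Finset.mem_sdiff, Finset.mem_union]
        have := hVW y
        tauto
      rw [Set.mem_singleton_iff, show S = V from Subtype.ext h1, show T = W from Subtype.ext h2]
    have hSne' : S.1 ≠ W.1 := by
      intro h1
      apply hnot
      have h2 : T.1 = V.1 := by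
        rw [hTS, h1]
        ext y
        rw [Finset.mem_sdiff, Finset.mem_union]
        have := hVW y
        tauto
      rw [Set.mem_singleton_iff, show S = W from Subtype.ext h1, show T = V from Subtype.ext h2]
      exact Sym2.eq_swap
    have hPS : Prob V.1 W.1 k S.1 := ⟨hSY, S.2.1, S.2.2, by rw [← hTS]; exact T.2.2⟩
    have hPT : Prob V.1 W.1 k T.1 := by
      refine ⟨hTY, T.2.1, T.2.2, ?_⟩
      rw [hTS, Finset.sdiff_sdiff_eq_self hSY]
      exact S.2.2
    have hnG : ∀ U : Vert n k, (¬ ∃ x ∈ U.1, x ∉ V.1 ∧ x ∉ W.1) → ¬ ∃ x, G U x := by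
      rintro U hU ⟨x, hx, _⟩
      exact hU ⟨x.1, hx, x.2⟩
    have hsome : ∃ y, col S = some y := by
      obtain ⟨x, hx⟩ := hA S.1 hPS hSne hSne'
      rcases hx with hx | hx
      · obtain ⟨y, hy, -⟩ := colH S (hnG S hS) ⟨⟨x, (hQ _ _ hx).1, (hQ _ _ hx).2.1⟩, hPS, hx⟩
        exact ⟨y, hy⟩
      · rw [← hTS] at hx
        obtain ⟨y, hy, -⟩ := colH T (hnG T hT) ⟨⟨x, (hQ _ _ hx).1, (hQ _ _ hx).2.1⟩, hPT, hx⟩
        exact ⟨y, by rw [hc, hy]⟩
    obtain ⟨y, hy⟩ := hsome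
    have hyS := (col1 S y hy).resolve_left (fun h1 => hnG S hS ⟨y, h1⟩)
    have hyT := (col1 T y (by rw [← hc, hy])).resolve_left (fun h1 => hnG T hT ⟨y, h1⟩)
    have q1 := hQ _ _ hyS.2
    have q2 := hQ _ _ hyT.2
    apply q2.2.2.2
    rw [hTS, Finset.mem_sdiff]
    exact ⟨q1.2.2.1, q1.2.2.2⟩
  have hcol : ((SG n k).deleteEdges {s(V, W)}).Colorable (Fintype.card (Option C)) :=
    (SimpleGraph.Coloring.mk col hvalid).colorable
  rwa [hcardC] at hcol


section

variable {V W : Finset (ZMod n)}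

lemma ord_self (hn : 3 ≤ n) (z : ZMod n) : ord z z = n - 1 := by
  have : NeZero n := ⟨by omega⟩
  unfold ord
  have h3 : z - z - 1 = ((n - 1 : ℕ) : ZMod n) := by
    rw [Nat.cast_sub (by omega)]
    simp
  rw [h3, ZMod.val_natCast, Nat.mod_eq_of_lt (by omega)]

/-- `V`, `W` are disjoint stable `k`-sets; the last `r` places (counted from `z + 1` on) form a run
of free elements; all other free elements have one neighbour in `V` and one in `W`. -/
structure Setup3 (V W : Finset (ZMod n)) (k : ℕ) (z : ZMod n) (r : ℕ) : Prop where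
  hV : Stable V
  hW : Stable W
  hd : Disjoint V W
  cV : V.card = k
  cW : W.card = k
  r1 : 1 ≤ r
  z1 : z + 1 ∈ V ∪ W
  run : ∀ x, n - r ≤ ord z x → x ∉ V ∧ x ∉ W
  nb : ∀ x, x ∉ V → x ∉ W → ord z x < n - r →
    (x - 1 ∈ V ∧ x + 1 ∈ W) ∨ (x - 1 ∈ W ∧ x + 1 ∈ V)

lemma Setup3.swap {z : ZMod n} {r : ℕ} (h : Setup3 V W k z r) : Setup3 W V k z r :=
  ⟨h.hW, h.hV, h.hd.symm, h.cW, h.cV, h.r1, by rw [Finset.union_comm]; exact h.z1,
    fun x hx => (h.run x hx).symm, fun x h1 h2 h3 => (h.nb x h2 h1 h3).symm⟩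

lemma core3 (hn : 3 ≤ n) {z : ZMod n} {r : ℕ} (h : Setup3 V W k z r) {d : ℕ}
    (hnd : n = 2 * k + d) (hlong : ∀ s : ℕ, s < 2 * d → z + 1 + (s : ZMod n) ∈ V ∪ W)
    {S : Finset (ZMod n)} (hS : Stable S) (hSk : S.card = k) {i : ZMod n}
    (hiS : i ∈ S) (hiV : i ∉ V) (hiW : i ∉ W)
    (hshort : ∀ x, x ∈ S → x ∉ V → x ∉ W → ord z x < n - r)
    (himax : ∀ x, x ∈ S → x ∉ V → x ∉ W → ord z x ≤ ord z i)
    {N : Finset (ZMod n)} (hNY : N ⊆ V ∪ W) (hNk : N.card = k) (hi1 : i - 1 ∉ N) (hi2 : i + 1 ∉ N)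
    (hag : ∀ y, y ∈ V ∪ W → ord z y < ord z i → (y ∈ N ↔ y ∈ W)) (hdis : Disjoint S N)
    (hcon : ∀ x, x ∈ S → x ∉ V → x ∉ W →
      ∃ N, Prob V W k N ∧ R V W z N x ∧ Disjoint S N) : False := by
  classical
  have : NeZero n := ⟨by omega⟩
  set I := S.filter (fun x => x ∉ V ∧ x ∉ W) with hI
  have hmemI : ∀ x, x ∈ I ↔ x ∈ S ∧ x ∉ V ∧ x ∉ W := fun x => Finset.mem_filter
  have hi : i ∈ I := (hmemI i).2 ⟨hiS, hiV, hiW⟩
  have himax' : ∀ x, x ∈ I → ord z x ≤ ord z i := fun x hx =>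
    himax x ((hmemI x).1 hx).1 ((hmemI x).1 hx).2.1 ((hmemI x).1 hx).2.2
  have hVW : ∀ y, y ∈ V → y ∉ W := fun y hy hy' => Finset.disjoint_left.1 h.hd hy hy'
  have hSN : ∀ y, y ∈ S → y ∉ N := fun y hy hy' => Finset.disjoint_left.1 hdis hy hy'
  have hX1 : ∀ x, x ∈ S → x ∉ V → x ∉ W → x - 1 ∈ V ∪ W ∧ x + 1 ∈ V ∪ W := by
    intro x hxS hx hx'
    rcases h.nb x hx hx' (hshort x hxS hx hx') with h1 | h1
    · exact ⟨Finset.mem_union_left _ h1.1, Finset.mem_union_right _ h1.2⟩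
    · exact ⟨Finset.mem_union_right _ h1.1, Finset.mem_union_left _ h1.2⟩
  set B := (V ∪ W) \ N with hB
  have hmemB : ∀ y, y ∈ B ↔ y ∈ V ∪ W ∧ y ∉ N := fun y => Finset.mem_sdiff
  have hYk : (V ∪ W).card = 2 * k := by
    rw [Finset.card_union_of_disjoint h.hd, h.cV, h.cW]
    ring
  have hBk : B.card = k := by
    rw [hB, Finset.card_sdiff_of_subset hNY, hYk, hNk]
    omega
  have hcard : I.card = (B \ S).card := by
    have h1 : B ∩ S = S \ I := by
      ext x
      rw [Finset.mem_inter, hmemB, Finset.mem_sdiff, hmemI, Finset.mem_union]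
      have := hSN x
      tauto
    have h2 : (B \ S).card + (B ∩ S).card = B.card := Finset.card_sdiff_add_card_inter B S
    have h3 : (S \ I).card = S.card - I.card :=
      Finset.card_sdiff_of_subset (Finset.filter_subset _ _)
    have h4 : I.card ≤ S.card := Finset.card_le_card (Finset.filter_subset _ _)
    rw [h1, h3] at h2
    omega
  have hId : I.card ≤ d := by
    have h1 : I ⊆ Finset.univ \ (V ∪ W) := by
      intro x hx
      have h2 := (hmemI x).1 hx
      rw [Finset.mem_sdiff, Finset.mem_union, not_or]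
      exact ⟨Finset.mem_univ _, h2.2⟩
    have h2 := Finset.card_le_card h1
    rw [Finset.card_sdiff_of_subset (Finset.subset_univ _), hYk, Finset.card_univ, ZMod.card] at h2
    omega
  have hnb : ∀ x, x ∈ S → x ∉ V → x ∉ W → (x - 1 ∈ V ∧ x + 1 ∈ W) ∨ (x - 1 ∈ W ∧ x + 1 ∈ V) :=
    fun x hxS hx hx' => h.nb x hx hx' (hshort x hxS hx hx')
  have hiz : i ≠ z := by
    rintro rfl
    have h1 := hshort _ hiS hiV hiW
    rw [ord_self hn] at h1
    have := h.r1
    omega
  have hilt := ord_lt_self hn hiz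
  have hord1 : ∀ m, m ∈ I → ord z (m + 1) = ord z m + 1 := by
    intro m hm
    apply ord_succ hn
    rintro rfl
    have := himax' _ hm
    omega
  have hord2 : ∀ m, m ∈ I → ord z m = ord z (m - 1) + 1 := by
    intro m hm
    apply ord_pred hn
    rintro rfl
    have h1 := h.z1
    have h2 := (hmemI _).1 hm
    rw [Finset.mem_union] at h1
    tauto
  have hlt : ∀ m, m ∈ I → m ≠ i → ord z (m + 1) < ord z i := by
    intro m hm hmi
    have h1 := himax' m hm
    have h2 : ord z m ≠ ord z i := fun h2 => hmi (ord_inj z h2)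
    have h3 := hord1 m hm
    have h4 : ord z (m + 1) ≠ ord z i := by
      intro h4
      have h5 := ord_inj z h4
      have h6 := (hX1 m ((hmemI m).1 hm).1 ((hmemI m).1 hm).2.1 ((hmemI m).1 hm).2.2).2
      rw [h5, Finset.mem_union] at h6
      tauto
    omega
  have hq : i + 1 ∈ B \ S := by
    rw [Finset.mem_sdiff, hmemB]
    exact ⟨⟨(hX1 i hiS hiV hiW).2, hi2⟩, hS i hiS⟩
  have hoi := hord1 i hi
  have hoi2 := hord2 i hi
  have hiB : i - 1 ∈ B := (hmemB _).2 ⟨(hX1 i hiS hiV hiW).1, hi1⟩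
  have hagB : ∀ y, y ∈ V ∪ W → ord z y < ord z i → (y ∈ B ↔ y ∈ V) := by
    intro y hy hlt'
    have h1 := hag y hy hlt'
    rw [hmemB]
    have h2 := Finset.mem_union.1 hy
    have h3 := hVW y
    tauto
  have hiV' : i - 1 ∈ V := (hagB _ (hX1 i hiS hiV hiW).1 (by omega)).1 hiB
  by_cases hT : ∃ j, j ∈ I ∧ j + 2 ∈ I ∧ j + 1 ∈ V
  · obtain ⟨j, hjI, hj2, hj1V⟩ := hT
    obtain ⟨hjS, hjV, hjW⟩ := (hmemI j).1 hjI
    obtain ⟨N', -, hNR', hdis'⟩ := hcon j hjS hjV hjW
    obtain ⟨-, -, hj1, hj3, hag'⟩ := hNR'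
    have hjVW := hVW (j + 1)
    have hjW1 : j - 1 ∈ W := by
      rcases hnb j hjS hjV hjW with h1 | h1
      · exact absurd h1.2 (hjVW hj1V)
      · exact h1.1
    have hoj := hord2 j hjI
    have hagV : ∀ y, y ∈ V ∪ W → ord z y < ord z j → (y ∈ N' ↔ y ∈ V) := by
      rcases hag' with h1 | h1
      · exact h1
      · exfalso
        exact hj1 ((h1 (j - 1) (Finset.mem_union_right _ hjW1) (by omega)).2 hjW1)
    have hji := himax' j hjI
    have hnV : ∀ v, v ∈ V → ord z v < ord z j → v ∈ B \ S := by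
      intro v hv hvj
      rw [Finset.mem_sdiff]
      refine ⟨(hagB v (Finset.mem_union_left _ hv) (by omega)).2 hv, fun hvS => ?_⟩
      exact Finset.disjoint_left.1 hdis' hvS ((hagV v (Finset.mem_union_left _ hv) hvj).2 hv)
    have hin : ord z i < n := ZMod.val_lt _
    have hdn : 2 * d ≤ ord z j := by
      by_contra hlt'
      push Not at hlt'
      have h1 := hlong _ hlt'
      have h2 : z + 1 + ((ord z j : ℕ) : ZMod n) = j := by
        unfold ord
        rw [ZMod.natCast_zmod_val]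
        ring
      rw [h2, Finset.mem_union] at h1
      tauto
    set f : ℕ → ZMod n := fun s => if z + 1 + ((2 * s : ℕ) : ZMod n) ∈ V then
      z + 1 + ((2 * s : ℕ) : ZMod n) else z + 1 + ((2 * s + 1 : ℕ) : ZMod n) with hf
    have hfV : ∀ s, s < d → f s ∈ V ∧ (ord z (f s) = 2 * s ∨ ord z (f s) = 2 * s + 1) := by
      intro s hs
      simp only [hf]
      split_ifs with h1
      · exact ⟨h1, Or.inl (ord_add hn z _ (by omega))⟩
      · refine ⟨?_, Or.inr (ord_add hn z _ (by omega))⟩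
        have h2 := hlong (2 * s) (by omega)
        have h3 := hlong (2 * s + 1) (by omega)
        rw [Finset.mem_union] at h2 h3
        have h4 := h2.resolve_left h1
        have h5 := h.hW _ h4
        have h6 : z + 1 + ((2 * s + 1 : ℕ) : ZMod n) = z + 1 + ((2 * s : ℕ) : ZMod n) + 1 := by
          push_cast
          ring
        rw [h6] at h3 ⊢
        exact h3.resolve_right h5
    have hle : ((Finset.range d).card : ℕ) ≤ ((B \ S).erase (i + 1)).card := by
      apply Finset.card_le_card_of_injOn f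
      · intro s hs
        have hs' := Finset.mem_range.1 (Finset.mem_coe.1 hs)
        obtain ⟨h1, h2⟩ := hfV s hs'
        have h3 : ord z (f s) < ord z j := by omega
        refine Finset.mem_coe.2 (Finset.mem_erase.2 ⟨?_, hnV _ h1 h3⟩)
        intro h4
        rw [h4] at h3
        omega
      · intro a ha b hb hab
        have h1 := (hfV a (Finset.mem_range.1 (Finset.mem_coe.1 ha))).2
        have h2 := (hfV b (Finset.mem_range.1 (Finset.mem_coe.1 hb))).2
        rw [hab] at h1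
        omega
    rw [Finset.card_range, Finset.card_erase_of_mem hq] at hle
    have := Finset.card_pos.2 ⟨_, hq⟩
    omega
  · set o : ZMod n → ZMod n := fun m => if m - 1 ∈ V then m - 1 else m + 1 with ho
    have hprop : ∀ m, m ∈ I → o m ∈ V ∧ ord z (o m) < ord z i ∧ o m ∉ S := by
      intro m hm
      obtain ⟨hmS, hmV, hmW⟩ := (hmemI m).1 hm
      simp only [ho]
      split_ifs with h1
      · have h2 := hord2 m hm
        have h3 := himax' m hm
        exact ⟨h1, by omega, hS.pred hmS⟩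
      · have h2 := hnb m hmS hmV hmW
        have h3 : m ≠ i := by
          rintro rfl
          exact h1 hiV'
        refine ⟨?_, hlt m hm h3, hS m hmS⟩
        rcases h2 with h2 | h2
        · exact absurd h2.1 h1
        · exact h2.2
    have hcase : ∀ m, m = o m + 1 ∨ m = o m - 1 := by
      intro m
      simp only [ho]
      split_ifs
      · left; ring
      · right; ring
    refine count hcard o hq ?_ ?_ ?_
    · intro m hm
      obtain ⟨h1, h2, h3⟩ := hprop m hm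
      have h4 : o m ∈ V ∪ W := Finset.mem_union_left _ h1
      exact Finset.mem_sdiff.2 ⟨(hagB _ h4 h2).2 h1, h3⟩
    · intro m hm hmq
      have h1 := (hprop m hm).2.1
      rw [hmq] at h1
      omega
    · have main : ∀ p, p ∈ V → p - 1 ∈ I → p + 1 ∈ I → False := by
        intro p hp h1 h2
        exact hT ⟨p - 1, h1, by rw [show p - 1 + 2 = p + 1 by ring]; exact h2,
          by rw [sub_add_cancel]; exact hp⟩
      intro m hm m' hm' heq
      have hpW := (hprop m hm).1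
      rcases hcase m with h1 | h1 <;> rcases hcase m' with h2 | h2
      · rw [h1, h2, heq]
      · exfalso
        refine main _ hpW ?_ ?_
        · rw [heq, ← h2]; exact hm'
        · rw [← h1]; exact hm
      · exfalso
        refine main _ hpW ?_ ?_
        · rw [← h1]; exact hm
        · rw [heq, ← h2]; exact hm'
      · rw [h1, h2, heq]

lemma lemB3 (hn : 3 ≤ n) {z : ZMod n} {r : ℕ} (h : Setup3 V W k z r) {d : ℕ}
    (hnd : n = 2 * k + d) (hlong : ∀ s : ℕ, s < 2 * d → z + 1 + (s : ZMod n) ∈ V ∪ W)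
    {S : Finset (ZMod n)} (hS : Stable S) (hSk : S.card = k) (hSX : ∃ x ∈ S, x ∉ V ∧ x ∉ W) :
    ∃ x ∈ S, x ∉ V ∧ x ∉ W ∧ ∀ N, Prob V W k N → (R V W z N x ∧ ord z x < n - r) →
      ¬ Disjoint S N := by
  classical
  by_cases hL : ∃ x ∈ S, n - r ≤ ord z x
  · obtain ⟨x, hxS, hx⟩ := hL
    refine ⟨x, hxS, (h.run x hx).1, (h.run x hx).2, ?_⟩
    rintro N - ⟨-, h1⟩
    omega
  · push Not at hL
    obtain ⟨i, hi, himax⟩ := Finset.exists_max_image (S.filter (fun x => x ∉ V ∧ x ∉ W)) (ord z) (by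
      obtain ⟨x, hx, hx'⟩ := hSX
      exact ⟨x, Finset.mem_filter.2 ⟨hx, hx'⟩⟩)
    obtain ⟨hiS, hiV, hiW⟩ := Finset.mem_filter.1 hi
    have himax' : ∀ x, x ∈ S → x ∉ V → x ∉ W → ord z x ≤ ord z i :=
      fun x h1 h2 h3 => himax x (Finset.mem_filter.2 ⟨h1, h2, h3⟩)
    by_contra hcon
    push Not at hcon
    obtain ⟨N, hNP, ⟨hNR, -⟩, hdis⟩ := hcon i hiS hiV hiW
    obtain ⟨hNY, hNk, hNS, hNS'⟩ := hNP
    obtain ⟨-, -, hi1, hi2, hag⟩ := hNR
    have hcon' : ∀ x, x ∈ S → x ∉ V → x ∉ W →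
        ∃ N, Prob V W k N ∧ R V W z N x ∧ Disjoint S N := by
      intro x a b c
      obtain ⟨N, h1, h2, h3⟩ := hcon x a b c
      exact ⟨N, h1, h2.1, h3⟩
    rcases hag with hag | hag
    · refine core3 hn h.swap hnd ?_ hS hSk hiS hiW hiV (fun x a _ _ => hL x a)
        (fun x a b c => himax' x a c b)
        (by rwa [Finset.union_comm]) hNk hi1 hi2 ?_ hdis ?_
      · intro s hs
        rw [Finset.union_comm]
        exact hlong s hs
      · intro y hy
        rw [Finset.union_comm] at hy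
        exact hag y hy
      · intro x a b c
        obtain ⟨N, h1, h2, h3⟩ := hcon' x a c b
        exact ⟨N, h1.swap, h2.swap, h3⟩
    · exact core3 hn h hnd hlong hS hSk hiS hiV hiW (fun x a _ _ => hL x a) himax' hNY hNk hi1 hi2
        hag hdis hcon'

lemma firstChange3 [NeZero n] (hn : 3 ≤ n) {Y A N : Finset (ZMod n)} {z : ZMod n} {L : ℕ}
    (hA : A ⊆ Y) (hN : N ⊆ Y) (hz : z + 1 ∈ Y) (hYL : ∀ y, y ∈ Y → ord z y < L)
    (hX : ∀ x, x ∉ Y → ord z x < L → x - 1 ∈ Y)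
    (hA1 : ∀ y, y ∈ Y → y + 1 ∈ Y → (y ∈ A ↔ y + 1 ∉ A))
    (hN1 : ∀ y, y ∈ Y → y + 1 ∈ Y → (y ∈ N ↔ y + 1 ∉ N))
    (hA2 : ∀ x, x ∉ Y → ord z x < L → (x - 1 ∈ A ↔ x + 1 ∉ A)) (hne : N ≠ A)
    (h0 : z + 1 ∈ N ↔ z + 1 ∈ A) :
    ∃ x, x ∉ Y ∧ ord z x < L ∧ (x - 1 ∈ N ↔ x + 1 ∈ N) ∧
      ∀ y, y ∈ Y → ord z y < ord z x → (y ∈ N ↔ y ∈ A) := by
  classical
  have hex : (Y.filter (fun y => ¬ (y ∈ N ↔ y ∈ A))).Nonempty := by
    by_contra h
    rw [Finset.not_nonempty_iff_eq_empty, Finset.filter_eq_empty_iff] at h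
    apply hne
    ext y
    by_cases hy : y ∈ Y
    · have := h hy
      tauto
    · constructor
      · intro h1; exact absurd (hN h1) hy
      · intro h1; exact absurd (hA h1) hy
  obtain ⟨y, hy, hmin⟩ := Finset.exists_min_image _ (ord z) hex
  rw [Finset.mem_filter] at hy
  obtain ⟨hyY, hyd⟩ := hy
  have hagree : ∀ y', y' ∈ Y → ord z y' < ord z y → (y' ∈ N ↔ y' ∈ A) := by
    intro y' hy' hlt
    by_contra h1
    have := hmin y' (Finset.mem_filter.2 ⟨hy', h1⟩)
    omega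
  have hyz : y ≠ z + 1 := by
    rintro rfl
    exact hyd h0
  have ho := ord_pred hn hyz
  have hyL := hYL y hyY
  have hxY : y - 1 ∉ Y := by
    intro hx
    have h1 := hagree (y - 1) hx (by omega)
    have h2 := hA1 (y - 1) hx (by rwa [sub_add_cancel])
    have h3 := hN1 (y - 1) hx (by rwa [sub_add_cancel])
    rw [sub_add_cancel] at h2 h3
    tauto
  refine ⟨y - 1, hxY, by omega, ?_, fun y' hy' hlt => hagree y' hy' (by omega)⟩
  have hx1 := hX _ hxY (by omega)
  have hxz : y - 1 ≠ z + 1 := by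
    intro h1
    rw [h1] at hxY
    exact hxY hz
  have ho2 := ord_pred hn hxz
  have h1 := hagree _ hx1 (by omega)
  have h2 := hA2 _ hxY (by omega)
  rw [sub_add_cancel] at h2 ⊢
  tauto

lemma lemA3 [NeZero n] (hn : 3 ≤ n) {z : ZMod n} {r : ℕ} (h : Setup3 V W k z r)
    {N : Finset (ZMod n)} (hN : Prob V W k N) (hNV : N ≠ V) (hNW : N ≠ W) :
    ∃ x, (R V W z N x ∧ ord z x < n - r) ∨ (R V W z ((V ∪ W) \ N) x ∧ ord z x < n - r) := by
  obtain ⟨hNY, -, hS1, hS2⟩ := hN
  have hz := h.z1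
  have hdis : ∀ y, y ∈ V → y ∉ W := fun y hy hy' => Finset.disjoint_left.1 h.hd hy hy'
  have hYL : ∀ y, y ∈ V ∪ W → ord z y < n - r := by
    intro y hy
    by_contra h1
    push Not at h1
    have h2 := h.run y h1
    rw [Finset.mem_union] at hy
    tauto
  have hX : ∀ x, x ∉ V ∪ W → ord z x < n - r → x - 1 ∈ V ∪ W := by
    intro x hx hx'
    rw [Finset.mem_union, not_or] at hx
    rcases h.nb x hx.1 hx.2 hx' with h1 | h1
    · exact Finset.mem_union_left _ h1.1
    · exact Finset.mem_union_right _ h1.1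
  have hN1 : ∀ y, y ∈ V ∪ W → y + 1 ∈ V ∪ W → (y ∈ N ↔ y + 1 ∉ N) := by
    intro y hy hy1
    constructor
    · intro h1; exact hS1 y h1
    · intro h1
      by_contra h2
      exact hS2 y (Finset.mem_sdiff.2 ⟨hy, h2⟩) (Finset.mem_sdiff.2 ⟨hy1, h1⟩)
  have hV1 : ∀ y, y ∈ V ∪ W → y + 1 ∈ V ∪ W → (y ∈ V ↔ y + 1 ∉ V) := by
    intro y hy hy1
    rw [Finset.mem_union] at hy hy1
    have h1 := h.hV y
    have h2 := h.hW y
    have h3 := hdis y
    tauto
  have hW1 : ∀ y, y ∈ V ∪ W → y + 1 ∈ V ∪ W → (y ∈ W ↔ y + 1 ∉ W) := by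
    intro y hy hy1
    rw [Finset.mem_union] at hy hy1
    have h1 := h.hV y
    have h2 := h.hW y
    have h3 := hdis y
    tauto
  have hV2 : ∀ x, x ∉ V ∪ W → ord z x < n - r → (x - 1 ∈ V ↔ x + 1 ∉ V) := by
    intro x hx hx'
    rw [Finset.mem_union, not_or] at hx
    have h1 := h.nb x hx.1 hx.2 hx'
    have h2 := hdis (x - 1)
    have h3 := hdis (x + 1)
    tauto
  have hW2 : ∀ x, x ∉ V ∪ W → ord z x < n - r → (x - 1 ∈ W ↔ x + 1 ∉ W) := by
    intro x hx hx'
    rw [Finset.mem_union, not_or] at hx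
    have h1 := h.nb x hx.1 hx.2 hx'
    have h2 := hdis (x - 1)
    have h3 := hdis (x + 1)
    tauto
  have hYdis : ∀ y, y ∈ V ∪ W → (y ∈ V ↔ y ∉ W) := by
    intro y hy
    rw [Finset.mem_union] at hy
    have h3 := hdis y
    tauto
  have key : (z + 1 ∈ N ↔ z + 1 ∈ V) ∨ (z + 1 ∈ N ↔ z + 1 ∈ W) := by
    have := hYdis _ hz
    tauto
  rcases key with key | key
  · obtain ⟨x, hx, hxL, h1, h2⟩ :=
      firstChange3 hn Finset.subset_union_left hNY hz hYL hX hV1 hN1 hV2 hNV key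
    have hx' := hx
    rw [Finset.mem_union, not_or] at hx'
    refine ⟨x, ?_⟩
    by_cases h3 : x - 1 ∈ N
    · right
      refine ⟨⟨hx'.1, hx'.2, ?_, ?_, Or.inr ?_⟩, hxL⟩
      · rw [Finset.mem_sdiff]; tauto
      · rw [Finset.mem_sdiff]; tauto
      · intro y hy hlt
        have h4 := h2 y hy hlt
        have h5 := hYdis y hy
        rw [Finset.mem_sdiff]
        tauto
    · left
      exact ⟨⟨hx'.1, hx'.2, h3, fun h4 => h3 (h1.2 h4), Or.inl h2⟩, hxL⟩
  · obtain ⟨x, hx, hxL, h1, h2⟩ :=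
      firstChange3 hn Finset.subset_union_right hNY hz hYL hX hW1 hN1 hW2 hNW key
    have hx' := hx
    rw [Finset.mem_union, not_or] at hx'
    refine ⟨x, ?_⟩
    by_cases h3 : x - 1 ∈ N
    · right
      refine ⟨⟨hx'.1, hx'.2, ?_, ?_, Or.inl ?_⟩, hxL⟩
      · rw [Finset.mem_sdiff]; tauto
      · rw [Finset.mem_sdiff]; tauto
      · intro y hy hlt
        have h4 := h2 y hy hlt
        have h5 := hYdis y hy
        rw [Finset.mem_sdiff]
        tauto
    · left
      exact ⟨⟨hx'.1, hx'.2, h3, fun h4 => h3 (h1.2 h4), Or.inr h2⟩, hxL⟩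

end

theorem colorable_run (hn : 3 ≤ n) {d : ℕ} (hnd : n = 2 * k + d) (V W : Vert n k) (z : ZMod n)
    (r : ℕ) (h : Setup3 V.1 W.1 k z r)
    (hlong : ∀ s : ℕ, s < 2 * d → z + 1 + (s : ZMod n) ∈ V.1 ∪ W.1) :
    ((SG n k).deleteEdges {s(V, W)}).Colorable (n - 2 * k + 1) := by
  have : NeZero n := ⟨by omega⟩
  refine colorable_gen hn V W h.hd (fun N x => R V.1 W.1 z N x ∧ ord z x < n - r) ?_ ?_ ?_
  · rintro N x ⟨⟨h1, h2, h3, h4, h5⟩, h6⟩
    refine ⟨h1, h2, ?_, h3⟩
    rcases h.nb x h1 h2 h6 with h7 | h7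
    · exact Finset.mem_union_left _ h7.1
    · exact Finset.mem_union_right _ h7.1
  · intro N hN h1 h2
    exact lemA3 hn h hN h1 h2
  · intro S hS
    exact lemB3 hn h hnd hlong S.2.2 S.2.1 hS

end Pool.Agent.X80.SG
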