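import Mathlib
import Pool.Agent.X80.Schrijver4

/-!
# All interlacing edges of `SG(2k+3,k)`
-/

set_option autoImplicit false

namespace Pool.Agent.X80.SG

open Finset

variable {n : ℕ} {k : ℕ}

lemma eq_of_ord [NeZero n] {z x : ZMod n} {m : ℕ} (h : ord z x = m) :
    x = z + 1 + (m : ZMod n) := by
  unfold ord at h
  rw [← h, ZMod.natCast_zmod_val]
  ring

lemma cast_sub_self {j : ℕ} (hj : j ≤ n) : ((n - j : ℕ) : ZMod n) = -(j : ZMod n) := by
  rw [Nat.cast_sub hj]
  simp

lemma colorable_run2 (hn : 3 ≤ n) {d : ℕ} (hnd : n = 2 * k + d) (V W : Vert n k)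
    (hd : Disjoint V.1 W.1) (x0 : ZMod n) (h0 : x0 ∉ V.1 ∧ x0 ∉ W.1)
    (h1 : x0 + 1 ∉ V.1 ∧ x0 + 1 ∉ W.1) (h2 : x0 + 2 ∈ V.1 ∪ W.1)
    (hnb : ∀ x, x ∉ V.1 → x ∉ W.1 → x ≠ x0 → x ≠ x0 + 1 →
      (x - 1 ∈ V.1 ∧ x + 1 ∈ W.1) ∨ (x - 1 ∈ W.1 ∧ x + 1 ∈ V.1))
    (hlong : ∀ s : ℕ, s < 2 * d → x0 + 2 + (s : ZMod n) ∈ V.1 ∪ W.1) :
    ((SG n k).deleteEdges {s(V, W)}).Colorable (n - 2 * k + 1) := by
  have : NeZero n := ⟨by omega⟩
  have e : x0 + 1 + 1 = x0 + 2 := by ring
  refine colorable_run hn hnd V W (x0 + 1) 2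
    ⟨V.2.2, W.2.2, hd, V.2.1, W.2.1, by norm_num, by rw [e]; exact h2, ?_, ?_⟩ ?_
  · intro x hx
    have hlt : ord (x0 + 1) x < n := ZMod.val_lt _
    rcases (show ord (x0 + 1) x = n - 2 ∨ ord (x0 + 1) x = n - 1 by omega) with h | h
    · have h3 := eq_of_ord h
      rw [cast_sub_self (by omega)] at h3
      have h4 : x = x0 := by rw [h3]; push_cast; ring
      rw [h4]
      exact h0
    · have h3 := eq_of_ord h
      rw [cast_sub_self (by omega)] at h3
      have h4 : x = x0 + 1 := by rw [h3]; push_cast; ring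
      rw [h4]
      exact h1
  · intro x hxV hxW hx
    apply hnb x hxV hxW
    · rintro rfl
      have h3 : ord (x + 1) x = n - 2 := by
        have h4 := ord_add hn (x + 1) (n - 2) (by omega)
        rw [cast_sub_self (by omega)] at h4
        rwa [show x + 1 + 1 + -((2 : ℕ) : ZMod n) = x by push_cast; ring] at h4
      omega
    · rintro rfl
      rw [ord_self hn] at hx
      omega
  · intro s hs
    rw [e]
    exact hlong s hs

lemma colorable_run3 (hn : 5 ≤ n) {d : ℕ} (hnd : n = 2 * k + d) (V W : Vert n k)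
    (hd : Disjoint V.1 W.1) (x0 : ZMod n) (h0 : x0 ∉ V.1 ∧ x0 ∉ W.1)
    (h1 : x0 + 1 ∉ V.1 ∧ x0 + 1 ∉ W.1) (h2 : x0 + 2 ∉ V.1 ∧ x0 + 2 ∉ W.1)
    (hall : ∀ x, x ≠ x0 → x ≠ x0 + 1 → x ≠ x0 + 2 → x ∈ V.1 ∪ W.1)
    (hlong : 2 * d + 3 ≤ n) :
    ((SG n k).deleteEdges {s(V, W)}).Colorable (n - 2 * k + 1) := by
  have : NeZero n := ⟨by omega⟩
  have hn3 : 3 ≤ n := by omega
  have hY : ∀ x, ord (x0 + 2) x < n - 3 → x ∈ V.1 ∪ W.1 := by
    intro x hx
    apply hall
    · rintro rfl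
      have h4 := ord_add hn3 (x + 2) (n - 3) (by omega)
      rw [cast_sub_self (by omega)] at h4
      rw [show x + 2 + 1 + -((3 : ℕ) : ZMod n) = x by push_cast; ring] at h4
      omega
    · rintro rfl
      have h4 := ord_add hn3 (x0 + 2) (n - 2) (by omega)
      rw [cast_sub_self (by omega)] at h4
      rw [show x0 + 2 + 1 + -((2 : ℕ) : ZMod n) = x0 + 1 by push_cast; ring] at h4
      omega
    · rintro rfl
      rw [ord_self hn3] at hx
      omega
  refine colorable_run hn3 hnd V W (x0 + 2) 3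
    ⟨V.2.2, W.2.2, hd, V.2.1, W.2.1, by norm_num, ?_, ?_, ?_⟩ ?_
  · apply hY
    have h4 := ord_add hn3 (x0 + 2) 0 (by omega)
    rw [Nat.cast_zero, add_zero] at h4
    omega
  · intro x hx
    have hlt : ord (x0 + 2) x < n := ZMod.val_lt _
    rcases (show ord (x0 + 2) x = n - 3 ∨ ord (x0 + 2) x = n - 2 ∨ ord (x0 + 2) x = n - 1 by
      omega) with h | h | h
    · have h3 := eq_of_ord h
      rw [cast_sub_self (by omega)] at h3
      have h4 : x = x0 := by rw [h3]; push_cast; ring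
      rw [h4]
      exact h0
    · have h3 := eq_of_ord h
      rw [cast_sub_self (by omega)] at h3
      have h4 : x = x0 + 1 := by rw [h3]; push_cast; ring
      rw [h4]
      exact h1
    · have h3 := eq_of_ord h
      rw [cast_sub_self (by omega)] at h3
      have h4 : x = x0 + 2 := by rw [h3]; push_cast; ring
      rw [h4]
      exact h2
  · intro x hxV hxW hx
    exfalso
    have h3 := hY x hx
    rw [Finset.mem_union] at h3
    tauto
  · intro s hs
    apply hY
    rw [ord_add hn3 (x0 + 2) s (by omega)]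
    omega

/-- the reflection of the cycle -/
def rf (S : Finset (ZMod n)) : Finset (ZMod n) := S.image (fun x => -x)

lemma mem_rf {S : Finset (ZMod n)} {y : ZMod n} : y ∈ rf S ↔ -y ∈ S := by
  unfold rf
  rw [Finset.mem_image]
  constructor
  · rintro ⟨x, hx, rfl⟩
    rwa [neg_neg]
  · intro h
    exact ⟨-y, h, neg_neg y⟩

/-- the reflection of a vertex -/
def rv (S : Vert n k) : Vert n k :=
  ⟨rf S.1, by
    unfold rf
    exact (Finset.card_image_of_injective _ neg_injective).trans S.2.1, by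
    intro i hi hi1
    rw [mem_rf] at hi hi1
    have h := S.2.2 _ hi1
    apply h
    rw [show -(i + 1) + 1 = -i by ring]
    exact hi⟩

lemma rv_inj {S T : Vert n k} (h : rv S = rv T) : S = T := by
  apply Subtype.ext
  ext y
  have h1 : rf S.1 = rf T.1 := congrArg Subtype.val h
  have h2 : (-y) ∈ rf S.1 ↔ (-y) ∈ rf T.1 := by rw [h1]
  rw [mem_rf, mem_rf, neg_neg] at h2
  exact h2

lemma colorable_reflect (V W : Vert n k) {m : ℕ}
    (h : ((SG n k).deleteEdges {s(rv V, rv W)}).Colorable m) :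
    ((SG n k).deleteEdges {s(V, W)}).Colorable m := by
  obtain ⟨c⟩ := h
  refine ⟨SimpleGraph.Coloring.mk (fun S => c (rv S)) ?_⟩
  intro S T hST
  apply c.valid
  rw [SimpleGraph.deleteEdges_adj] at hST ⊢
  obtain ⟨⟨hne, hd⟩, hnot⟩ := hST
  refine ⟨⟨fun h => hne (rv_inj h), ?_⟩, ?_⟩
  · rw [Finset.disjoint_left] at hd ⊢
    intro y hy hy'
    have hy1 : -y ∈ S.1 := mem_rf.1 hy
    have hy2 : -y ∈ T.1 := mem_rf.1 hy'
    exact hd hy1 hy2
  · intro h
    apply hnot
    rw [Set.mem_singleton_iff] at h ⊢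
    rw [Sym2.eq_iff] at h ⊢
    rcases h with ⟨h1, h2⟩ | ⟨h1, h2⟩
    · exact Or.inl ⟨rv_inj h1, rv_inj h2⟩
    · exact Or.inr ⟨rv_inj h1, rv_inj h2⟩

lemma colorable_run2' (hn : 3 ≤ n) {d : ℕ} (hnd : n = 2 * k + d) (V W : Vert n k)
    (hd : Disjoint V.1 W.1) (x0 : ZMod n) (h0 : x0 ∉ V.1 ∧ x0 ∉ W.1)
    (h1 : x0 + 1 ∉ V.1 ∧ x0 + 1 ∉ W.1) (h2 : x0 - 1 ∈ V.1 ∪ W.1)
    (hnb : ∀ x, x ∉ V.1 → x ∉ W.1 → x ≠ x0 → x ≠ x0 + 1 →
      (x - 1 ∈ V.1 ∧ x + 1 ∈ W.1) ∨ (x - 1 ∈ W.1 ∧ x + 1 ∈ V.1))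
    (hlong : ∀ s : ℕ, s < 2 * d → x0 - 1 - (s : ZMod n) ∈ V.1 ∪ W.1) :
    ((SG n k).deleteEdges {s(V, W)}).Colorable (n - 2 * k + 1) := by
  apply colorable_reflect
  have hmV : ∀ y, y ∈ (rv V).1 ↔ -y ∈ V.1 := fun y => mem_rf
  have hmW : ∀ y, y ∈ (rv W).1 ↔ -y ∈ W.1 := fun y => mem_rf
  apply colorable_run2 hn hnd (rv V) (rv W) ?_ (-x0 - 1) ?_ ?_ ?_ ?_ ?_
  · rw [Finset.disjoint_left] at hd ⊢
    intro y hy hy'
    exact hd ((hmV y).1 hy) ((hmW y).1 hy')
  · rw [hmV, hmW, show -(-x0 - 1) = x0 + 1 by ring]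
    exact h1
  · rw [hmV, hmW, show -(-x0 - 1 + 1) = x0 by ring]
    exact h0
  · rw [Finset.mem_union, hmV, hmW, show -(-x0 - 1 + 2) = x0 - 1 by ring, ← Finset.mem_union]
    exact h2
  · intro x hxV hxW hx hx'
    rw [hmV] at hxV
    rw [hmW] at hxW
    have h3 := hnb (-x) hxV hxW (by
      intro h; apply hx'; rw [← h]; ring) (by
      intro h; apply hx; rw [show x = -(-x) by ring, h]; ring)
    rw [hmV, hmV, hmW, hmW, show -(x - 1) = -x + 1 by ring, show -(x + 1) = -x - 1 by ring]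
    tauto
  · intro s hs
    rw [Finset.mem_union, hmV, hmW, show -(-x0 - 1 + 2 + (s : ZMod n)) = x0 - 1 - (s : ZMod n) by ring,
      ← Finset.mem_union]
    exact hlong s hs

theorem colorable_three (hk : 9 ≤ k) (hnd : n = 2 * k + 3) (V W : Vert n k)
    (hadj : (SG n k).Adj V W) (hint : Interlacing V.1 W.1) :
    ((SG n k).deleteEdges {s(V, W)}).Colorable (n - 2 * k + 1) := by
  classical
  have hn : 3 ≤ n := by omega
  have : NeZero n := ⟨by omega⟩
  by_cases hiso : ∀ x, x ∉ V.1 ∪ W.1 → x + 1 ∈ V.1 ∪ W.1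
  · exact colorable_interlacing hn hnd (by omega) V W hadj hint hiso
  push Not at hiso
  obtain ⟨x0, hx0, hx1⟩ := hiso
  have hd := hadj.2
  have hYk : (V.1 ∪ W.1).card = 2 * k := by
    rw [Finset.card_union_of_disjoint hd, V.2.1, W.2.1]
    ring
  have hXd : (Finset.univ \ (V.1 ∪ W.1)).card = 3 := by
    rw [Finset.card_sdiff_of_subset (Finset.subset_univ _), hYk, Finset.card_univ, ZMod.card]
    omega
  have hcast : ∀ j : ℕ, 0 < j → j < n → (j : ZMod n) ≠ 0 := by
    intro j hj hj' h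
    rw [ZMod.natCast_eq_zero_iff] at h
    exact absurd (Nat.le_of_dvd hj h) (by omega)
  have h01 : x0 + 1 ≠ x0 := by
    intro h
    apply hcast 1 (by omega) (by omega)
    push_cast
    linear_combination h
  obtain ⟨x3, hx3⟩ : ∃ x3, ((Finset.univ \ (V.1 ∪ W.1)).erase x0).erase (x0 + 1) = {x3} := by
    rw [← Finset.card_eq_one, Finset.card_erase_of_mem, Finset.card_erase_of_mem, hXd]
    · rw [Finset.mem_sdiff]
      exact ⟨Finset.mem_univ _, hx0⟩
    · rw [Finset.mem_erase, Finset.mem_sdiff]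
      exact ⟨h01, Finset.mem_univ _, hx1⟩
  have hX : ∀ x, x ∉ V.1 ∪ W.1 ↔ x = x0 ∨ x = x0 + 1 ∨ x = x3 := by
    intro x
    have h1 : x ∈ ((Finset.univ \ (V.1 ∪ W.1)).erase x0).erase (x0 + 1) ↔ x ∈ ({x3} : Finset _) := by
      rw [hx3]
    rw [Finset.mem_erase, Finset.mem_erase, Finset.mem_sdiff, Finset.mem_singleton] at h1
    have h2 := Finset.mem_univ x
    constructor
    · intro h
      tauto
    · rintro (h | h | h)
      · rw [h]; exact hx0
      · rw [h]; exact hx1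
      · tauto
  have hxx : x3 ≠ x0 ∧ x3 ≠ x0 + 1 := by
    have h1 : x3 ∈ ((Finset.univ \ (V.1 ∪ W.1)).erase x0).erase (x0 + 1) := by
      rw [hx3]; exact Finset.mem_singleton_self _
    rw [Finset.mem_erase, Finset.mem_erase] at h1
    exact ⟨h1.2.1, h1.1⟩
  have hn' : ∀ x, x ∉ V.1 ∪ W.1 → x ∉ V.1 ∧ x ∉ W.1 := by
    intro x hx
    rwa [Finset.mem_union, not_or] at hx
  have hx3n : x3 ∉ V.1 ∪ W.1 := (hX x3).2 (Or.inr (Or.inr rfl))
  by_cases hA : x3 = x0 + 2
  · refine colorable_run3 (by omega) hnd V W hd x0 (hn' _ hx0) (hn' _ hx1)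
      (by rw [← hA]; exact hn' _ hx3n) ?_ (by omega)
    intro x a b c
    by_contra h
    rcases (hX x).1 h with h | h | h
    · exact a h
    · exact b h
    · exact c (by rw [h, hA])
  by_cases hB : x3 = x0 - 1
  · refine colorable_run3 (by omega) hnd V W hd (x0 - 1) (by rw [← hB]; exact hn' _ hx3n)
      (by rw [sub_add_cancel]; exact hn' _ hx0)
      (by rw [show x0 - 1 + 2 = x0 + 1 by ring]; exact hn' _ hx1) ?_ (by omega)
    intro x a b c
    by_contra h
    rcases (hX x).1 h with h | h | h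
    · exact b (by rw [h, sub_add_cancel])
    · exact c (by rw [h]; ring)
    · exact a (by rw [h, hB])
  have hnb : ∀ x, x ∉ V.1 → x ∉ W.1 → x ≠ x0 → x ≠ x0 + 1 →
      (x - 1 ∈ V.1 ∧ x + 1 ∈ W.1) ∨ (x - 1 ∈ W.1 ∧ x + 1 ∈ V.1) := by
    intro x hxV hxW a b
    have hx : x ∉ V.1 ∪ W.1 := by rw [Finset.mem_union]; tauto
    have hxe : x = x3 := by
      rcases (hX x).1 hx with h | h | h
      · exact absurd h a
      · exact absurd h b
      · exact h
    have h1 : x + 1 ∈ V.1 ∪ W.1 := by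
      by_contra h
      rcases (hX _).1 h with h | h | h
      · exact hB (by rw [← hxe]; linear_combination h)
      · exact a (by linear_combination h)
      · rw [← hxe] at h
        apply hcast 1 (by omega) (by omega)
        push_cast
        linear_combination h
    have h2 : x - 1 ∈ V.1 ∪ W.1 := by
      by_contra h
      rcases (hX _).1 h with h | h | h
      · exact b (by linear_combination h)
      · exact hA (by rw [← hxe]; linear_combination h)
      · rw [← hxe] at h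
        apply hcast 1 (by omega) (by omega)
        push_cast
        linear_combination -h
    have h3 := hint (x - 1) h2 2 (by norm_num) (by
      rw [show x - 1 + ((2 : ℕ) : ZMod n) = x + 1 by push_cast; ring]
      exact h1) (by
      intro s hs1 hs2
      have hs : s = 1 := by omega
      rw [hs, Nat.cast_one, sub_add_cancel]
      exact hx)
    rw [show x - 1 + ((2 : ℕ) : ZMod n) = x + 1 by push_cast; ring] at h3
    rw [Finset.mem_union] at h1 h2
    tauto
  have hin : ∀ x, x ≠ x0 → x ≠ x0 + 1 → x ≠ x3 → x ∈ V.1 ∪ W.1 := by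
    intro x a b c
    by_contra h
    rcases (hX x).1 h with h | h | h
    · exact a h
    · exact b h
    · exact c h
  by_cases hlong : ∀ s : ℕ, s < 2 * 3 → x0 + 2 + (s : ZMod n) ∈ V.1 ∪ W.1
  · refine colorable_run2 hn hnd V W hd x0 (hn' _ hx0) (hn' _ hx1) ?_ hnb hlong
    have := hlong 0 (by omega)
    rwa [Nat.cast_zero, add_zero] at this
  · push Not at hlong
    obtain ⟨s, hs, hsY⟩ := hlong
    have hx3s : x3 = x0 + 2 + (s : ZMod n) := by
      rcases (hX _).1 hsY with h | h | h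
      · exfalso
        apply hcast (2 + s) (by omega) (by omega)
        push_cast
        linear_combination h
      · exfalso
        apply hcast (1 + s) (by omega) (by omega)
        push_cast
        linear_combination h
      · exact h.symm
    have hlong' : ∀ s : ℕ, s < 2 * 3 → x0 - 1 - (s : ZMod n) ∈ V.1 ∪ W.1 := by
      intro t ht
      apply hin
      · intro h
        apply hcast (1 + t) (by omega) (by omega)
        push_cast
        linear_combination -h
      · intro h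
        apply hcast (2 + t) (by omega) (by omega)
        push_cast
        linear_combination -h
      · intro h
        rw [hx3s] at h
        apply hcast (3 + s + t) (by omega) (by omega)
        push_cast
        linear_combination -h
    refine colorable_run2' hn hnd V W hd x0 (hn' _ hx0) (hn' _ hx1) ?_ hnb hlong'
    have := hlong' 0 (by omega)
    rwa [Nat.cast_zero, sub_zero] at this

end Pool.Agent.X80.SG
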