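import Mathlib
import Pool.Agent.X80.Schrijver
import Pool.Agent.H277R2.OM3

/-!
# The chromatic number of the Schrijver graph: the lower bound

Schrijver's theorem, from Tucker's lemma for sign vectors.
-/

set_option autoImplicit false

namespace Pool.Agent.X80.SG

open Finset Pool.Agent.H277R2.OM

variable {n k : ℕ}

lemma isOM_univ {α : Type*} : IsOM (Set.univ : Set (α → SignType)) := by
  classical
  refine ⟨trivial, fun _ _ => trivial, fun _ _ _ _ => trivial, ?_⟩
  intro X _ Y _ e he heq
  refine ⟨fun f => if f = e then 0 else cmp X Y f, trivial, by simp, ?_⟩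
  intro f hf
  have hfe : f ≠ e := by
    rintro rfl
    rcases hf with hf | hf
    · exact he hf
    · exact hf heq
  simp [hfe]

theorem oct_tucker [NeZero n] (idx : (ZMod n → SignType) → ℕ) (s : (ZMod n → SignType) → ZMod 2)
    (hidx : ∀ X, X ≠ 0 → idx (-X) = idx X) (hs : ∀ X, X ≠ 0 → s (-X) = 1 + s X)
    (hc : ∀ X Y, X ≠ 0 → Y ≠ 0 → Le X Y → idx X = idx Y → s X = s Y)
    (I : Finset ℕ) (hI : ∀ X, X ≠ 0 → idx X ∈ I) : n ≤ I.card := by
  classical
  have hpos : 0 < n := Nat.pos_of_ne_zero (NeZero.ne n)
  refine tucker (L := Set.univ) isOM_univ (fun j => (j : ZMod n)) n hpos ?_ ?_ idx s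
    (fun X _ h => hidx X h) (fun X _ h => hs X h) (fun X _ Y _ hX hY hle he => hc X Y hX hY hle he)
    I (fun X _ h => hI X h)
  · intro j hj
    refine ⟨fun y => if y = (j : ZMod n) then 1 else 0, ⟨trivial, ?_⟩, by simp⟩
    intro i hi
    have hne : ((i : ℕ) : ZMod n) ≠ (j : ZMod n) := by
      intro h
      have h1 := congrArg ZMod.val h
      rw [ZMod.val_natCast, ZMod.val_natCast, Nat.mod_eq_of_lt (by omega),
        Nat.mod_eq_of_lt hj] at h1
      omega
    simp [hne]
  · rintro X ⟨_, hX⟩
    funext y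
    have h1 := hX y.val (ZMod.val_lt y)
    simp only [ZMod.natCast_zmod_val] at h1
    exact h1

/-- `X` has an alternating sequence of length `m` which begins with the sign `ε`. -/
def Has (X : ZMod n → SignType) (ε : SignType) (m : ℕ) : Prop :=
  ∃ f : ℕ → ZMod n, (∀ i j, i < j → j < m → (f i).val < (f j).val) ∧
    ∀ i, i < m → X (f i) = if i % 2 = 0 then ε else -ε

lemma has_zero [NeZero n] (X : ZMod n → SignType) (ε : SignType) : Has X ε 0 :=
  ⟨fun _ => 0, fun i j _ h => by omega, fun i h => by omega⟩

lemma Has.le [NeZero n] {X : ZMod n → SignType} {ε : SignType} {m : ℕ} (h : Has X ε m) :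
    m ≤ n := by
  classical
  obtain ⟨f, hf, -⟩ := h
  have h1 : (Finset.range m).card ≤ (Finset.univ : Finset (ZMod n)).card := by
    apply Finset.card_le_card_of_injOn f (fun _ _ => Finset.mem_coe.2 (Finset.mem_univ _))
    intro i hi j hj hij
    have hi' := Finset.mem_range.1 (Finset.mem_coe.1 hi)
    have hj' := Finset.mem_range.1 (Finset.mem_coe.1 hj)
    rcases lt_trichotomy i j with h1 | h1 | h1
    · have := hf i j h1 hj'
      rw [hij] at this
      omega
    · exact h1
    · have := hf j i h1 hi'
      rw [hij] at this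
      omega
  rwa [Finset.card_range, Finset.card_univ, ZMod.card] at h1

open Classical in
/-- the longest alternating sequence of `X` which begins with the sign `ε` -/
noncomputable def alt (X : ZMod n → SignType) (ε : SignType) : ℕ := Nat.findGreatest (Has X ε) n

lemma has_alt [NeZero n] (X : ZMod n → SignType) (ε : SignType) : Has X ε (alt X ε) := by
  classical
  unfold alt
  exact Nat.findGreatest_spec (P := Has X ε) (Nat.zero_le n) (has_zero X ε)

lemma Has.le_alt [NeZero n] {X : ZMod n → SignType} {ε : SignType} {m : ℕ} (h : Has X ε m) :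
    m ≤ alt X ε := by
  classical
  unfold alt
  exact Nat.le_findGreatest h.le h

lemma sgn_neg_ne {ε : SignType} (h : ε ≠ 0) : -ε ≠ 0 := by
  revert h
  revert ε
  decide

lemma Has.mono {X Y : ZMod n → SignType} (hXY : Le X Y) {ε : SignType} (hε : ε ≠ 0) {m : ℕ}
    (h : Has X ε m) : Has Y ε m := by
  obtain ⟨f, hf, hf'⟩ := h
  refine ⟨f, hf, fun i hi => ?_⟩
  have h1 := hf' i hi
  have h2 : X (f i) ≠ 0 := by
    rw [h1]
    split_ifs
    · exact hε
    · exact sgn_neg_ne hε
  rw [hXY _ h2, h1]

lemma Has.neg {X : ZMod n → SignType} {ε : SignType} {m : ℕ} (h : Has X ε m) :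
    Has (-X) (-ε) m := by
  obtain ⟨f, hf, hf'⟩ := h
  refine ⟨f, hf, fun i hi => ?_⟩
  rw [Pi.neg_apply, hf' i hi]
  split_ifs <;> rfl

lemma alt_mono [NeZero n] {X Y : ZMod n → SignType} (hXY : Le X Y) {ε : SignType} (hε : ε ≠ 0) :
    alt X ε ≤ alt Y ε := ((has_alt X ε).mono hXY hε).le_alt

lemma alt_neg [NeZero n] (X : ZMod n → SignType) (ε : SignType) : alt (-X) (-ε) = alt X ε := by
  apply le_antisymm
  · have h := (has_alt (-X) (-ε)).neg
    rw [neg_neg, neg_neg] at h
    exact h.le_alt
  · exact (has_alt X ε).neg.le_alt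

lemma cons {X : ZMod n → SignType} {ε : SignType} {m : ℕ} {g : ℕ → ZMod n}
    (hg : ∀ i j, i < j → j < m → (g i).val < (g j).val)
    (hg' : ∀ i, i < m → X (g i) = if i % 2 = 0 then ε else -ε) (hm : 0 < m) {y : ZMod n}
    (hy : X y = -ε) (hlt : y.val < (g 0).val) : Has X (-ε) (m + 1) := by
  refine ⟨fun i => if i = 0 then y else g (i - 1), ?_, ?_⟩
  · intro i j hij hj
    have hj0 : j ≠ 0 := by omega
    rcases Nat.eq_zero_or_pos i with hi | hi
    · subst hi
      simp only [if_true, hj0, if_false]
      rcases Nat.eq_or_lt_of_le (Nat.succ_le_of_lt hij) with h1 | h1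
      · rw [← h1]
        exact hlt
      · exact lt_trans hlt (hg 0 (j - 1) (by omega) (by omega))
    · have hi0 : i ≠ 0 := by omega
      simp only [hi0, hj0, if_false]
      exact hg _ _ (by omega) (by omega)
  · intro i hi
    rcases Nat.eq_zero_or_pos i with h0 | h0
    · subst h0
      simpa using hy
    · have hi0 : i ≠ 0 := by omega
      simp only [hi0, if_false]
      rw [hg' (i - 1) (by omega), neg_neg]
      rcases Nat.even_or_odd' i with ⟨c, hc | hc⟩
      · rw [if_neg (by omega), if_pos (by omega)]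
      · rw [if_pos (by omega), if_neg (by omega)]

lemma alt_ne [NeZero n] {X : ZMod n → SignType} (hX : X ≠ 0) : alt X 1 ≠ alt X (-1) := by
  intro heq
  obtain ⟨f, hf, hf'⟩ := has_alt X 1
  obtain ⟨g, hg, hg'⟩ := has_alt X (-1)
  rcases Nat.eq_zero_or_pos (alt X 1) with h0 | h0
  · obtain ⟨y, hy⟩ : ∃ y, X y ≠ 0 := by
      by_contra h
      push Not at h
      exact hX (funext h)
    have h1 : Has X (X y) 1 := by
      refine ⟨fun _ => y, fun i j h1 h2 => by omega, fun i hi => ?_⟩
      have : i = 0 := by omega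
      subst this
      simp
    have h2 : X y = 1 ∨ X y = -1 := by
      revert hy
      generalize X y = e
      revert e
      decide
    have h3 := h1.le_alt
    rcases h2 with h2 | h2
    · rw [h2] at h3; omega
    · rw [h2] at h3; omega
  · have hf0 := hf' 0 h0
    have hg0 := hg' 0 (by omega)
    simp only [Nat.zero_mod, if_true] at hf0 hg0
    have hne : (f 0).val ≠ (g 0).val := by
      intro h
      have h1 := ZMod.val_injective n h
      rw [h1, hg0] at hf0
      exact absurd hf0 (by decide)
    rcases Nat.lt_or_gt_of_ne hne with h1 | h1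
    · have h2 := cons (ε := -1) hg hg' (by omega) (by rw [hf0]; rfl) h1
      rw [neg_neg] at h2
      have := h2.le_alt
      omega
    · have h2 := cons (ε := 1) hf hf' h0 hg0 h1
      have := h2.le_alt
      omega

lemma extract (hn : 3 ≤ n) {X : ZMod n → SignType} {ε : SignType} {m : ℕ} (h : Has X ε m)
    (hkm : 2 * k ≤ m) (b : ℕ) (hb : b < 2) :
    ∃ S : Vert n k, ∀ y ∈ S.1, X y = if b = 0 then ε else -ε := by
  classical
  have : NeZero n := ⟨by omega⟩
  have : Fact (1 < n) := ⟨by omega⟩
  obtain ⟨f, hf, hf'⟩ := h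
  have hinj : ∀ i j, i < m → j < m → f i = f j → i = j := by
    intro i j hi hj hij
    rcases lt_trichotomy i j with h1 | h1 | h1
    · have := hf i j h1 hj
      rw [hij] at this
      omega
    · exact h1
    · have := hf j i h1 hi
      rw [hij] at this
      omega
  refine ⟨⟨(Finset.range k).image (fun i => f (2 * i + b)), ?_, ?_⟩, ?_⟩
  · rw [Finset.card_image_of_injOn, Finset.card_range]
    intro i hi j hj hij
    have hi' := Finset.mem_range.1 (Finset.mem_coe.1 hi)
    have hj' := Finset.mem_range.1 (Finset.mem_coe.1 hj)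
    have := hinj _ _ (by omega) (by omega) hij
    omega
  · intro y hy hy1
    obtain ⟨i, hi, rfl⟩ := Finset.mem_image.1 hy
    obtain ⟨j, hj, hj'⟩ := Finset.mem_image.1 hy1
    rw [Finset.mem_range] at hi hj
    have hval := congrArg ZMod.val hj'
    rw [ZMod.val_add, ZMod.val_one] at hval
    have hlt : (f (2 * i + b)).val < n := ZMod.val_lt _
    by_cases h1 : (f (2 * i + b)).val + 1 < n
    · rw [Nat.mod_eq_of_lt h1] at hval
      rcases lt_trichotomy i j with h2 | h2 | h2
      · have h3 := hf (2 * i + b) (2 * i + b + 1) (by omega) (by omega)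
        have h4 := hf (2 * i + b + 1) (2 * j + b) (by omega) (by omega)
        omega
      · subst h2
        omega
      · have h3 := hf (2 * j + b) (2 * i + b) (by omega) (by omega)
        omega
    · have h2 : (f (2 * i + b)).val + 1 = n := by omega
      rw [h2, Nat.mod_self] at hval
      rcases (show b = 0 ∨ b = 1 by omega) with h3 | h3
      · subst h3
        have h4 := hf (2 * i + 0) (2 * i + 0 + 1) (by omega) (by omega)
        have h5 : (f (2 * i + 0 + 1)).val < n := ZMod.val_lt _
        omega
      · subst h3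
        have h4 := hf (2 * j) (2 * j + 1) (by omega) (by omega)
        omega
  · intro y hy
    obtain ⟨i, hi, rfl⟩ := Finset.mem_image.1 hy
    rw [Finset.mem_range] at hi
    rw [hf' _ (by omega)]
    rcases (show b = 0 ∨ b = 1 by omega) with h3 | h3
    · subst h3
      rw [if_pos (by omega), if_pos rfl]
    · subst h3
      rw [if_neg (by omega), if_neg (by omega)]

theorem schrijver_le (hn : 3 ≤ n) (hk : 1 ≤ k) (hnk : 2 * k ≤ n) {t : ℕ}
    (hcol : (SG n k).Colorable t) : n - 2 * k + 2 ≤ t := by
  classical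
  have : NeZero n := ⟨by omega⟩
  obtain ⟨c⟩ := hcol
  set cols : (ZMod n → SignType) → Set ℕ := fun X =>
    {q | ∃ S : Vert n k, (∀ y ∈ S.1, X y = 1) ∧ ((c S : Fin t) : ℕ) = q} with hcols
  set mn : (ZMod n → SignType) → ℕ := fun X => sInf (cols X) with hmn
  set big : (ZMod n → SignType) → Prop := fun X => 2 * k ≤ max (alt X 1) (alt X (-1)) with hbig
  have hdisj : ∀ X Y : ZMod n → SignType, Le X Y → (cols X).Nonempty → (cols (-Y)).Nonempty →
      mn X ≠ mn (-Y) := by
    intro X Y hXY h1 h2 heq
    obtain ⟨S, hS, hS'⟩ := Nat.sInf_mem h1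
    obtain ⟨T, hT, hT'⟩ := Nat.sInf_mem h2
    have h3 : Disjoint S.1 T.1 := by
      rw [Finset.disjoint_left]
      intro y hy hy'
      have h4 := hS y hy
      have h5 := hT y hy'
      have h6 := hXY y (by rw [h4]; decide)
      rw [Pi.neg_apply, h6, h4] at h5
      exact absurd h5 (by decide)
    have h4 : S ≠ T := by
      rintro rfl
      have h5 : S.1.Nonempty := by
        rw [← Finset.card_pos, S.2.1]
        omega
      obtain ⟨y, hy⟩ := h5
      exact Finset.disjoint_left.1 h3 hy hy
    have h5 : (SG n k).Adj S T := ⟨h4, h3⟩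
    apply c.valid h5
    apply Fin.ext
    rw [hS', hT']
    exact heq
  have hmono : ∀ X Y : ZMod n → SignType, Le X Y → (cols X).Nonempty → mn Y ≤ mn X := by
    intro X Y hXY h1
    apply Nat.sInf_le
    obtain ⟨S, hS, hS'⟩ := Nat.sInf_mem h1
    refine ⟨S, fun y hy => ?_, hS'⟩
    have h4 := hS y hy
    rw [hXY y (by rw [h4]; decide), h4]
  have hbound : ∀ X : ZMod n → SignType, (cols X).Nonempty → mn X < t := by
    intro X h1
    obtain ⟨S, hS, hS'⟩ := Nat.sInf_mem h1
    show sInf (cols X) < t
    rw [← hS']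
    exact (c S).2
  have hne : ∀ X, big X → (cols X).Nonempty ∧ (cols (-X)).Nonempty := by
    intro X hX
    rcases le_max_iff.1 hX with h1 | h1
    · obtain ⟨S, hS⟩ := extract (k := k) hn (has_alt X 1) h1 0 (by omega)
      obtain ⟨T, hT⟩ := extract (k := k) hn (has_alt X 1) h1 1 (by omega)
      refine ⟨⟨_, S, fun y hy => by simpa using hS y hy, rfl⟩, ⟨_, T, fun y hy => ?_, rfl⟩⟩
      rw [Pi.neg_apply, hT y hy]
      rfl
    · obtain ⟨S, hS⟩ := extract (k := k) hn (has_alt X (-1)) h1 0 (by omega)
      obtain ⟨T, hT⟩ := extract (k := k) hn (has_alt X (-1)) h1 1 (by omega)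
      refine ⟨⟨_, T, fun y hy => ?_, rfl⟩, ⟨_, S, fun y hy => ?_, rfl⟩⟩
      · rw [hT y hy]
        rfl
      · rw [Pi.neg_apply, hS y hy]
        rfl
  have hbn : ∀ X, big (-X) ↔ big X := by
    intro X
    have h1 := alt_neg X 1
    have h2 := alt_neg X (-1)
    rw [neg_neg] at h2
    simp only [hbig]
    rw [h1, h2, max_comm]
  have hLe : ∀ X : ZMod n → SignType, Le X X := Le.refl
  have hmain := oct_tucker (n := n)
    (fun X => if big X then 2 * k + min (mn X) (mn (-X)) else max (alt X 1) (alt X (-1)))
    (fun X => if big X then (if mn X < mn (-X) then 0 else 1)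
      else (if alt X (-1) < alt X 1 then 0 else 1)) ?_ ?_ ?_ (Finset.Icc 1 (2 * k - 1 + (t - 1))) ?_
  · rw [Nat.card_Icc] at hmain
    omega
  · intro X hX
    have h1 := alt_neg X 1
    have h2 := alt_neg X (-1)
    rw [neg_neg] at h2
    simp only [hbn X, neg_neg, h1, h2]
    by_cases hb : big X
    · rw [if_pos hb, if_pos hb, min_comm]
    · rw [if_neg hb, if_neg hb, max_comm]
  · intro X hX
    have h1 := alt_neg X 1
    have h2 := alt_neg X (-1)
    rw [neg_neg] at h2
    simp only [hbn X, neg_neg, h1, h2]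
    by_cases hb : big X
    · have h3 := hdisj X X (hLe X) (hne X hb).1 (hne X hb).2
      rw [if_pos hb, if_pos hb]
      rcases Nat.lt_or_gt_of_ne h3 with h4 | h4
      · rw [if_neg (by omega), if_pos h4]
        rfl
      · rw [if_pos h4, if_neg (by omega)]
        rfl
    · have h3 := alt_ne hX
      rw [if_neg hb, if_neg hb]
      rcases Nat.lt_or_gt_of_ne h3 with h4 | h4
      · rw [if_pos h4, if_neg (by omega)]
        rfl
      · rw [if_neg (by omega), if_pos h4]
        rfl
  · intro X Y hX hY hXY heq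
    have hm1 := alt_mono (ε := 1) hXY (by decide)
    have hm2 := alt_mono (ε := -1) hXY (by decide)
    have hx := alt_ne hX
    have hy := alt_ne hY
    by_cases hbX : big X <;> by_cases hbY : big Y
    · rw [if_pos hbX, if_pos hbY] at heq
      rw [if_pos hbX, if_pos hbY]
      have h1 := hdisj X X (hLe X) (hne X hbX).1 (hne X hbX).2
      have h2 := hdisj Y Y (hLe Y) (hne Y hbY).1 (hne Y hbY).2
      have h3 := hdisj X Y hXY (hne X hbX).1 (hne Y hbY).2
      have h4 := hdisj (-X) (-Y) hXY.neg (hne X hbX).2 (by rw [neg_neg]; exact (hne Y hbY).1)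
      rw [neg_neg] at h4
      by_cases h5 : mn X < mn (-X)
      · rw [if_pos h5, if_pos]
        by_contra h6
        omega
      · rw [if_neg h5, if_neg]
        intro h6
        omega
    · rw [if_pos hbX, if_neg hbY] at heq
      simp only [hbig] at hbY
      omega
    · rw [if_neg hbX, if_pos hbY] at heq
      simp only [hbig] at hbX
      omega
    · rw [if_neg hbX, if_neg hbY] at heq
      rw [if_neg hbX, if_neg hbY]
      by_cases h5 : alt X (-1) < alt X 1
      · rw [if_pos h5, if_pos]
        by_contra h6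
        omega
      · rw [if_neg h5, if_neg]
        intro h6
        omega
  · intro X hX
    rw [Finset.mem_Icc]
    by_cases hb : big X
    · rw [if_pos hb]
      have h1 := hdisj X X (hLe X) (hne X hb).1 (hne X hb).2
      have h2 := hbound X (hne X hb).1
      have h3 := hbound (-X) (hne X hb).2
      omega
    · rw [if_neg hb]
      have h1 := alt_ne hX
      simp only [hbig] at hb
      omega

end Pool.Agent.X80.SG
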