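import Mathlib
import Pool.Agent.X80.Schrijver5

/-!
# Interlacing edges of Schrijver graphs with one long gap
-/

set_option autoImplicit false

namespace Pool.Agent.X80.SG

open Finset

variable {n : ℕ} {k : ℕ}

lemma colorable_gap (hn : 3 ≤ n) {d : ℕ} (hd1 : 1 ≤ d) (hnd : n = 2 * k + d) (V W : Vert n k)
    (hd : Disjoint V.1 W.1) (z : ZMod n) (r : ℕ) (hr : 1 ≤ r)
    (hrun : ∀ j : ℕ, j < r → z - (j : ZMod n) ∉ V.1 ∧ z - (j : ZMod n) ∉ W.1)
    (hnb : ∀ x, x ∉ V.1 → x ∉ W.1 → (∀ j : ℕ, j < r → x ≠ z - (j : ZMod n)) →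
      (x - 1 ∈ V.1 ∧ x + 1 ∈ W.1) ∨ (x - 1 ∈ W.1 ∧ x + 1 ∈ V.1))
    (hlong : ∀ s : ℕ, s < 2 * d → z + 1 + (s : ZMod n) ∈ V.1 ∪ W.1) :
    ((SG n k).deleteEdges {s(V, W)}).Colorable (n - 2 * k + 1) := by
  have : NeZero n := ⟨by omega⟩
  have h1 := hlong 0 (by omega)
  rw [Nat.cast_zero, add_zero] at h1
  refine colorable_run hn hnd V W z r ⟨V.2.2, W.2.2, hd, V.2.1, W.2.1, hr, h1, ?_, ?_⟩ hlong
  · intro x hx
    have hlt : ord z x < n := ZMod.val_lt _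
    have h2 := eq_of_ord (rfl : ord z x = ord z x)
    obtain ⟨j, hj⟩ : ∃ j, ord z x = n - (j + 1) ∧ j + 1 ≤ n ∧ j < r :=
      ⟨n - 1 - ord z x, by omega, by omega, by omega⟩
    rw [hj.1, cast_sub_self hj.2.1] at h2
    have h3 := hrun j hj.2.2
    rw [show z - (j : ZMod n) = x by rw [h2]; push_cast; ring] at h3
    exact h3
  · intro x hxV hxW hx
    apply hnb x hxV hxW
    rintro j hj rfl
    by_cases hjn : j + 1 ≤ n
    · have h4 := ord_add hn z (n - (j + 1)) (by omega)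
      rw [cast_sub_self hjn, show z + 1 + -((j + 1 : ℕ) : ZMod n) = z - (j : ZMod n) by
        push_cast; ring] at h4
      omega
    · omega

lemma colorable_gap' (hn : 3 ≤ n) {d : ℕ} (hd1 : 1 ≤ d) (hnd : n = 2 * k + d) (V W : Vert n k)
    (hd : Disjoint V.1 W.1) (z : ZMod n) (r : ℕ) (hr : 1 ≤ r)
    (hrun : ∀ j : ℕ, j < r → z + (j : ZMod n) ∉ V.1 ∧ z + (j : ZMod n) ∉ W.1)
    (hnb : ∀ x, x ∉ V.1 → x ∉ W.1 → (∀ j : ℕ, j < r → x ≠ z + (j : ZMod n)) →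
      (x - 1 ∈ V.1 ∧ x + 1 ∈ W.1) ∨ (x - 1 ∈ W.1 ∧ x + 1 ∈ V.1))
    (hlong : ∀ s : ℕ, s < 2 * d → z - 1 - (s : ZMod n) ∈ V.1 ∪ W.1) :
    ((SG n k).deleteEdges {s(V, W)}).Colorable (n - 2 * k + 1) := by
  apply colorable_reflect
  have hmV : ∀ y, y ∈ (rv V).1 ↔ -y ∈ V.1 := fun y => mem_rf
  have hmW : ∀ y, y ∈ (rv W).1 ↔ -y ∈ W.1 := fun y => mem_rf
  apply colorable_gap hn hd1 hnd (rv V) (rv W) ?_ (-z) r hr ?_ ?_ ?_
  · rw [Finset.disjoint_left] at hd ⊢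
    intro y hy hy'
    exact hd ((hmV y).1 hy) ((hmW y).1 hy')
  · intro j hj
    rw [hmV, hmW, show -(-z - (j : ZMod n)) = z + j by ring]
    exact hrun j hj
  · intro x hxV hxW hx
    rw [hmV] at hxV
    rw [hmW] at hxW
    have h3 := hnb (-x) hxV hxW (by
      intro j hj h
      apply hx j hj
      linear_combination -h)
    rw [hmV, hmV, hmW, hmW, show -(x - 1) = -x + 1 by ring, show -(x + 1) = -x - 1 by ring]
    tauto
  · intro s hs
    rw [Finset.mem_union, hmV, hmW, show -(-z + 1 + (s : ZMod n)) = z - 1 - (s : ZMod n) by ring,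
      ← Finset.mem_union]
    exact hlong s hs

/-- One gap of `r` free elements `z, …, z + r - 1`, next to which (on one of the two sides) `2 d`
consecutive elements of `V ∪ W` lie; all other gaps are single elements. -/
theorem colorable_oneGap (hn : 3 ≤ n) {d : ℕ} (hd1 : 1 ≤ d) (hnd : n = 2 * k + d) (V W : Vert n k)
    (hadj : (SG n k).Adj V W) (hint : Interlacing V.1 W.1) (z : ZMod n) (r : ℕ) (hr : 1 ≤ r)
    (hrun : ∀ j : ℕ, j < r → z + (j : ZMod n) ∉ V.1 ∪ W.1)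
    (hiso : ∀ x, x ∉ V.1 ∪ W.1 → (∀ j : ℕ, j < r → x ≠ z + (j : ZMod n)) →
      x - 1 ∈ V.1 ∪ W.1 ∧ x + 1 ∈ V.1 ∪ W.1)
    (hlong : (∀ s : ℕ, s < 2 * d → z + (r : ZMod n) + (s : ZMod n) ∈ V.1 ∪ W.1) ∨
      (∀ s : ℕ, s < 2 * d → z - 1 - (s : ZMod n) ∈ V.1 ∪ W.1)) :
    ((SG n k).deleteEdges {s(V, W)}).Colorable (n - 2 * k + 1) := by
  have hd := hadj.2
  have hnb : ∀ x, x ∉ V.1 → x ∉ W.1 → (∀ j : ℕ, j < r → x ≠ z + (j : ZMod n)) →
      (x - 1 ∈ V.1 ∧ x + 1 ∈ W.1) ∨ (x - 1 ∈ W.1 ∧ x + 1 ∈ V.1) := by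
    intro x hxV hxW hx
    have hxY : x ∉ V.1 ∪ W.1 := by rw [Finset.mem_union]; tauto
    obtain ⟨h2, h1⟩ := hiso x hxY hx
    have h3 := hint (x - 1) h2 2 (by norm_num) (by
      rw [show x - 1 + ((2 : ℕ) : ZMod n) = x + 1 by push_cast; ring]
      exact h1) (by
      intro s hs1 hs2
      have hs : s = 1 := by omega
      rw [hs, Nat.cast_one, sub_add_cancel]
      exact hxY)
    rw [show x - 1 + ((2 : ℕ) : ZMod n) = x + 1 by push_cast; ring] at h3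
    rw [Finset.mem_union] at h1 h2
    tauto
  have hrun' : ∀ j : ℕ, j < r → z + (j : ZMod n) ∉ V.1 ∧ z + (j : ZMod n) ∉ W.1 := by
    intro j hj
    have := hrun j hj
    rwa [Finset.mem_union, not_or] at this
  rcases hlong with hlong | hlong
  · have key : ∀ j : ℕ, j < r → z + (r : ZMod n) - 1 - (j : ZMod n) =
        z + ((r - 1 - j : ℕ) : ZMod n) := by
      intro j hj
      rw [show r - 1 - j = r - (1 + j) by omega, Nat.cast_sub (by omega)]
      push_cast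
      ring
    refine colorable_gap hn hd1 hnd V W hd (z + (r : ZMod n) - 1) r hr ?_ ?_ ?_
    · intro j hj
      rw [key j hj]
      exact hrun' _ (by omega)
    · intro x hxV hxW hx
      apply hnb x hxV hxW
      intro j hj h
      apply hx (r - 1 - j) (by omega)
      rw [key _ (by omega), show r - 1 - (r - 1 - j) = j by omega]
      exact h
    · intro s hs
      rw [sub_add_cancel]
      exact hlong s hs
  · exact colorable_gap' hn hd1 hnd V W hd z r hr hrun' hnb hlong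

end Pool.Agent.X80.SG
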